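import Pool.Agent.Hhelper78.Cyc.Types

/-!
# Counting cycles
-/

namespace Pool.Agent.Hhelper78.Cyc

open SimpleGraph

/-- a maximal family of disjoint `R`-pairs -/
lemma exists_matching {α : Type*} [DecidableEq α] (R : α → α → Prop) (hirr : ∀ a, ¬ R a a)
    (F : Finset α) : ∃ M : Finset (α × α), (∀ p ∈ M, p.1 ∈ F ∧ p.2 ∈ F ∧ R p.1 p.2) ∧
      (∀ p ∈ M, ∀ q ∈ M, p ≠ q → p.1 ≠ q.1 ∧ p.1 ≠ q.2 ∧ p.2 ≠ q.1 ∧ p.2 ≠ q.2) ∧
      (∀ f ∈ F, ∀ g ∈ F, (∀ p ∈ M, f ≠ p.1 ∧ f ≠ p.2) → (∀ p ∈ M, g ≠ p.1 ∧ g ≠ p.2) →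
        ¬ R f g) := by
  induction hc : F.card using Nat.strong_induction_on generalizing F with
  | _ c ih =>
    by_cases hex : ∃ f ∈ F, ∃ g ∈ F, R f g
    · obtain ⟨f, hf, g, hg, hR⟩ := hex
      have hne : f ≠ g := by rintro rfl; exact hirr f hR
      obtain ⟨M, h1, h2, h3⟩ := ih ((F.erase f).erase g).card (by
        rw [← hc]
        calc ((F.erase f).erase g).card ≤ (F.erase f).card := Finset.card_le_card (Finset.erase_subset _ _)
          _ < F.card := Finset.card_erase_lt_of_mem hf) ((F.erase f).erase g) rfl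
      have hM : ∀ p ∈ M, p.1 ≠ f ∧ p.1 ≠ g ∧ p.2 ≠ f ∧ p.2 ≠ g := by
        intro p hp
        obtain ⟨a1, a2, -⟩ := h1 p hp
        rw [Finset.mem_erase, Finset.mem_erase] at a1 a2
        exact ⟨a1.2.1, a1.1, a2.2.1, a2.1⟩
      refine ⟨insert (f, g) M, ?_, ?_, ?_⟩
      · intro p hp
        rw [Finset.mem_insert] at hp
        rcases hp with rfl | hp
        · exact ⟨hf, hg, hR⟩
        · obtain ⟨a1, a2, a3⟩ := h1 p hp
          exact ⟨Finset.mem_of_mem_erase (Finset.mem_of_mem_erase a1),
            Finset.mem_of_mem_erase (Finset.mem_of_mem_erase a2), a3⟩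
      · intro p hp q hq hpq
        rw [Finset.mem_insert] at hp hq
        rcases hp with rfl | hp <;> rcases hq with rfl | hq
        · exact absurd rfl hpq
        · obtain ⟨a1, a2, a3, a4⟩ := hM q hq
          exact ⟨a1.symm, a3.symm, a2.symm, a4.symm⟩
        · obtain ⟨a1, a2, a3, a4⟩ := hM p hp
          exact ⟨a1, a2, a3, a4⟩
        · exact h2 p hp q hq hpq
      · intro a ha b hb hpa hpb
        have ha' := hpa (f, g) (Finset.mem_insert_self _ _)
        have hb' := hpb (f, g) (Finset.mem_insert_self _ _)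
        exact h3 a (Finset.mem_erase.mpr ⟨ha'.2, Finset.mem_erase.mpr ⟨ha'.1, ha⟩⟩)
          b (Finset.mem_erase.mpr ⟨hb'.2, Finset.mem_erase.mpr ⟨hb'.1, hb⟩⟩)
          (fun p hp => hpa p (Finset.mem_insert_of_mem hp))
          (fun p hp => hpb p (Finset.mem_insert_of_mem hp))
    · push Not at hex
      exact ⟨∅, by simp, by simp, fun f hf g hg _ _ => hex f hf g hg⟩

/-- ordered pairs mapped to sets with fibres contained in a pair and its swap -/
lemma card_pairs_le {ι β : Type*} [DecidableEq ι] [DecidableEq β] (D : Finset (ι × ι))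
    (κ : ι × ι → β) (T : Finset β) (hκ : ∀ x ∈ D, κ x ∈ T)
    (hfib : ∀ x ∈ D, ∀ y ∈ D, κ x = κ y → y = x ∨ y = x.swap) : D.card ≤ 2 * T.card := by
  calc D.card ≤ 2 * (D.image κ).card := by
        apply Finset.card_le_mul_card_image
        intro b hb
        rw [Finset.mem_image] at hb
        obtain ⟨x, hx, rfl⟩ := hb
        calc (D.filter fun y => κ y = κ x).card ≤ ({x, x.swap} : Finset (ι × ι)).card := by
              apply Finset.card_le_card
              intro y hy
              rw [Finset.mem_filter] at hy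
              rw [Finset.mem_insert, Finset.mem_singleton]
              exact hfib x hx y hy.1 hy.2.symm
          _ ≤ 2 := Finset.card_le_two
    _ ≤ 2 * T.card := by
        apply Nat.mul_le_mul_left
        apply Finset.card_le_card
        intro b hb
        rw [Finset.mem_image] at hb
        obtain ⟨x, hx, rfl⟩ := hb
        exact hκ x hx

variable {V : Type*} [Fintype V] [DecidableEq V] {G : SimpleGraph V} {n : ℕ}

/-- the chords of the Hamiltonian cycle `H` -/
noncomputable def chords (G : SimpleGraph V) (H : Set (Sym2 V)) : Finset (Sym2 V) :=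
  open Classical in Finset.univ.filter fun f => f ∈ G.edgeSet ∧ f ∉ H

lemma mem_chords {H : Set (Sym2 V)} {f : Sym2 V} :
    f ∈ chords G H ↔ f ∈ G.edgeSet ∧ f ∉ H := by
  classical
  unfold chords
  simp

/-- chord sets of cycles -/
noncomputable def fam (G : SimpleGraph V) (H : Set (Sym2 V)) : Finset (Finset (Sym2 V)) :=
  open Classical in (chords G H).powerset.filter fun K => ∃ t, HasCyc G H (K : Set (Sym2 V)) t

lemma mem_fam {H : Set (Sym2 V)} {K : Finset (Sym2 V)} :
    K ∈ fam G H ↔ K ⊆ chords G H ∧ ∃ t, HasCyc G H (K : Set (Sym2 V)) t := by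
  classical
  unfold fam
  simp

lemma hasCyc_unique (hD : DistinctCycleLengths G) {H : Set (Sym2 V)} {K K' : Finset (Sym2 V)}
    (hK : K ⊆ chords G H) (hK' : K' ⊆ chords G H) {t : ℕ} (h : HasCyc G H (K : Set (Sym2 V)) t)
    (h' : HasCyc G H (K' : Set (Sym2 V)) t) : K = K' := by
  obtain ⟨u, c, h1, h2, h3⟩ := h
  obtain ⟨u', c', h1', h2', h3'⟩ := h'
  have hE := hD u u' c c' h1 h1' (h3.trans h3'.symm)
  ext f
  by_cases hf : f ∈ H
  · constructor
    · intro hfK
      exact absurd hf (mem_chords.mp (hK hfK)).2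
    · intro hfK
      exact absurd hf (mem_chords.mp (hK' hfK)).2
  · have e1 := h2 f hf
    have e2 := h2' f hf
    rw [Finset.mem_coe] at e1 e2
    rw [← e1, ← e2]
    exact hE f

lemma card_fam (hD : DistinctCycleLengths G) (hcard : Fintype.card V = n) (H : Set (Sym2 V)) :
    (fam G H).card ≤ n := by
  classical
  have hch : ∀ K : Finset (Sym2 V), ∃ t, K ∈ fam G H → HasCyc G H (K : Set (Sym2 V)) t := by
    intro K
    by_cases hK : K ∈ fam G H
    · obtain ⟨t, ht⟩ := (mem_fam.mp hK).2
      exact ⟨t, fun _ => ht⟩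
    · exact ⟨0, fun h => absurd h hK⟩
  choose t ht using hch
  have hinj : Set.InjOn t (fam G H : Set (Finset (Sym2 V))) := by
    intro K hK K' hK' h
    have h1 := ht K hK
    have h2 := ht K' hK'
    rw [h] at h1
    exact hasCyc_unique hD (mem_fam.mp hK).1 (mem_fam.mp hK').1 h1 h2
  calc (fam G H).card = ((fam G H).image t).card := (Finset.card_image_of_injOn hinj).symm
    _ ≤ (Finset.Icc 1 n).card := by
        apply Finset.card_le_card
        intro s hs
        rw [Finset.mem_image] at hs
        obtain ⟨K, hK, rfl⟩ := hs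
        obtain ⟨u, c, h1, -, h3⟩ := ht K hK
        rw [Finset.mem_Icc, ← h3]
        refine ⟨by have := h1.three_le_length; omega, ?_⟩
        have h4 := h1.support_nodup.length_le_card
        rw [List.length_tail, Walk.length_support, hcard] at h4
        omega
    _ = n := by simp

/-- chord sets of cycles through `e` with at most four chords -/
noncomputable def famE (G : SimpleGraph V) (H : Set (Sym2 V)) (e : Sym2 V) :
    Finset (Finset (Sym2 V)) := (fam G H).filter fun K => e ∈ K ∧ K.card ≤ 4

lemma mem_famE {H : Set (Sym2 V)} {e : Sym2 V} {K : Finset (Sym2 V)} :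
    K ∈ famE G H e ↔ K ∈ fam G H ∧ e ∈ K ∧ K.card ≤ 4 := by
  unfold famE
  rw [Finset.mem_filter]

lemma sum_famE (H : Set (Sym2 V)) :
    ∑ e ∈ chords G H, (famE G H e).card ≤ 4 * (fam G H).card := by
  have h1 : ∑ e ∈ chords G H, (famE G H e).card =
      ∑ K ∈ fam G H, ((chords G H).filter fun e => e ∈ K ∧ K.card ≤ 4).card := by
    unfold famE
    simp_rw [Finset.card_filter]
    rw [Finset.sum_comm]
  rw [h1, mul_comm]
  apply Finset.sum_le_card_nsmul
  intro K hK
  by_cases h : K.card ≤ 4
  · refine le_trans (Finset.card_le_card (t := K) ?_) h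
    intro e he
    rw [Finset.mem_filter] at he
    exact he.2.1
  · have : ((chords G H).filter fun e => e ∈ K ∧ K.card ≤ 4) = ∅ := by
      rw [Finset.filter_eq_empty_iff]
      intro e _ h'
      exact h h'.2
    rw [this]; simp

/-- a chord lying in few short cycles -/
lemma exists_good (hD : DistinctCycleLengths G) (hcard : Fintype.card V = n) (H : Set (Sym2 V))
    (hm : 0 < (chords G H).card) :
    ∃ e ∈ chords G H, (famE G H e).card * (chords G H).card ≤ 4 * n := by
  by_contra hcon
  push Not at hcon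
  have h1 := sum_famE (G := G) H
  have h2 := card_fam hD hcard H
  have h3 : (chords G H).card * (4 * n) < (chords G H).card * ∑ e ∈ chords G H, (famE G H e).card := by
    rw [Finset.mul_sum]
    calc (chords G H).card * (4 * n) = ∑ e ∈ chords G H, 4 * n := by
          rw [Finset.sum_const, smul_eq_mul]
      _ < ∑ e ∈ chords G H, (chords G H).card * (famE G H e).card := by
          apply Finset.sum_lt_sum_of_nonempty (Finset.card_pos.mp hm)
          intro e he
          rw [mul_comm (chords G H).card]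
          exact hcon e he
  have h4 := lt_of_mul_lt_mul_left h3 (Nat.zero_le _)
  omega

end Pool.Agent.Hhelper78.Cyc
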