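import Mathlib

/-!
# Hamiltonian graphs with pairwise distinct cycle lengths: definitions
-/

namespace Pool.Agent.Hhelper78.Cyc

/-- No two distinct cycles of `G` have the same length: two cycles (closed walks without repeated
vertices) of the same length have the same edge set. -/
def DistinctCycleLengths {V : Type*} (G : SimpleGraph V) : Prop :=
  ∀ (u v : V) (p : G.Walk u u) (q : G.Walk v v), p.IsCycle → q.IsCycle → p.length = q.length →
    ∀ e, e ∈ p.edges ↔ e ∈ q.edges

/-- `h n`: the maximum number of edges of a Hamiltonian graph on `n` vertices with distinct cycle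
lengths. -/
noncomputable def h (n : ℕ) : ℕ :=
  sSup {m : ℕ | ∃ G : SimpleGraph (Fin n), G.IsHamiltonian ∧ DistinctCycleLengths G ∧
    G.edgeSet.ncard = m}

/-- A Sidon set: all sums of two elements are distinct, up to the order of the summands. -/
def IsSidon (A : Finset ℕ) : Prop :=
  ∀ a ∈ A, ∀ b ∈ A, ∀ c ∈ A, ∀ d ∈ A, a + b = c + d → (a = c ∧ b = d) ∨ (a = d ∧ b = c)

end Pool.Agent.Hhelper78.Cyc
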