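import Pool.Agent.Hhelper78.Cyc.Lab

/-!
# The fan graph of a Golomb ruler
-/

namespace Pool.Agent.Hhelper78.Cyc

open SimpleGraph

/-- vertices `1, …, n-1` form a path, vertex `0` is joined to `a + 1` for `a ∈ A` -/
def fan (n : ℕ) (A : Finset ℕ) : SimpleGraph (Fin n) where
  Adj u v := (u.val = 0 ∧ 0 < v.val ∧ v.val - 1 ∈ A) ∨ (v.val = 0 ∧ 0 < u.val ∧ u.val - 1 ∈ A) ∨
    (0 < u.val ∧ 0 < v.val ∧ (u.val + 1 = v.val ∨ v.val + 1 = u.val))
  symm := ⟨by
    intro u v h
    rcases h with h | h | h
    · exact Or.inr (Or.inl h)
    · exact Or.inl h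
    · exact Or.inr (Or.inr ⟨h.2.1, h.1, h.2.2.symm⟩)⟩
  loopless := ⟨by
    intro u h
    rcases h with h | h | h <;> omega⟩

variable {n : ℕ} {A : Finset ℕ}

lemma fan_adj {u v : Fin n} : (fan n A).Adj u v ↔
    (u.val = 0 ∧ 0 < v.val ∧ v.val - 1 ∈ A) ∨ (v.val = 0 ∧ 0 < u.val ∧ u.val - 1 ∈ A) ∨
    (0 < u.val ∧ 0 < v.val ∧ (u.val + 1 = v.val ∨ v.val + 1 = u.val)) := Iff.rfl

/-- line edges between `a` and `b` -/
def lineE (n a b : ℕ) : Set (Sym2 (Fin n)) :=
  {f | ∃ z w : Fin n, a ≤ z.val ∧ z.val + 1 = w.val ∧ w.val ≤ b ∧ f = s(z, w)}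

lemma line_path {x y : Fin n} (p : (fan n A).Walk x y) (hp : p.IsPath)
    (h0 : ∀ z ∈ p.support, 0 < z.val) :
    p.length = max x.val y.val - min x.val y.val ∧
    (∀ z, z ∈ p.support ↔ min x.val y.val ≤ z.val ∧ z.val ≤ max x.val y.val) ∧
    (∀ f, f ∈ p.edges ↔ f ∈ lineE n (min x.val y.val) (max x.val y.val)) := by
  induction p with
  | nil =>
    rename_i u
    refine ⟨by simp, ?_, ?_⟩
    · intro z
      simp only [Walk.support_nil, List.mem_singleton, min_self, max_self]
      rw [Fin.ext_iff]
      omega
    · intro f
      simp only [Walk.edges_nil, List.not_mem_nil, min_self, max_self, false_iff]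
      rintro ⟨z, w, h1, h2, h3, -⟩
      omega
  | cons h p ih =>
    rename_i u v w
    rw [Walk.cons_isPath_iff] at hp
    obtain ⟨ih1, ih2, ih3⟩ := ih hp.1 (fun z hz => h0 z (by
      rw [Walk.support_cons]; exact List.mem_cons_of_mem _ hz))
    have hu : 0 < u.val := h0 u (by simp)
    have hv : 0 < v.val := h0 v (by simp)
    have hnot : ¬ (min v.val w.val ≤ u.val ∧ u.val ≤ max v.val w.val) := by
      rw [← ih2]; exact hp.2
    have hstep : u.val + 1 = v.val ∨ v.val + 1 = u.val := by
      rcases fan_adj.mp h with h | h | h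
      · omega
      · omega
      · exact h.2.2
    rcases hstep with hs | hs
    · have hw : v.val ≤ w.val := by
        by_contra hcon
        apply hnot
        rw [min_def, max_def]
        split_ifs <;> omega
      rw [min_eq_left hw, max_eq_right hw] at ih1 ih2 ih3
      have e1 : min u.val w.val = u.val := min_eq_left (by omega)
      have e2 : max u.val w.val = w.val := max_eq_right (by omega)
      rw [e1, e2]
      refine ⟨?_, ?_, ?_⟩
      · rw [Walk.length_cons, ih1]; omega
      · intro z
        rw [Walk.support_cons, List.mem_cons, ih2, Fin.ext_iff]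
        omega
      · intro f
        rw [Walk.edges_cons, List.mem_cons, ih3]
        constructor
        · rintro (rfl | ⟨z, z', h1, h2, h3, rfl⟩)
          · exact ⟨u, v, le_rfl, hs, hw, rfl⟩
          · exact ⟨z, z', by omega, h2, h3, rfl⟩
        · rintro ⟨z, z', h1, h2, h3, rfl⟩
          rcases eq_or_lt_of_le h1 with h4 | h4
          · left
            have : z = u := Fin.ext h4.symm
            subst this
            have : z' = v := Fin.ext (by omega)
            rw [this]
          · right
            exact ⟨z, z', by omega, h2, h3, rfl⟩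
    · have hw : w.val ≤ v.val := by
        by_contra hcon
        apply hnot
        rw [min_def, max_def]
        split_ifs <;> omega
      rw [min_eq_right hw, max_eq_left hw] at ih1 ih2 ih3
      have e1 : min u.val w.val = w.val := min_eq_right (by omega)
      have e2 : max u.val w.val = u.val := max_eq_left (by omega)
      rw [e1, e2]
      refine ⟨?_, ?_, ?_⟩
      · rw [Walk.length_cons, ih1]; omega
      · intro z
        rw [Walk.support_cons, List.mem_cons, ih2, Fin.ext_iff]
        omega
      · intro f
        rw [Walk.edges_cons, List.mem_cons, ih3]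
        constructor
        · rintro (rfl | ⟨z, z', h1, h2, h3, rfl⟩)
          · exact ⟨v, u, hw, hs, le_rfl, Sym2.eq_swap⟩
          · exact ⟨z, z', h1, h2, by omega, rfl⟩
        · rintro ⟨z, z', h1, h2, h3, rfl⟩
          rcases eq_or_lt_of_le h3 with h4 | h4
          · left
            have : z' = u := Fin.ext h4
            subst this
            have : z = v := Fin.ext (by omega)
            rw [this]
            exact Sym2.eq_swap
          · right
            exact ⟨z, z', h1, h2, by omega, rfl⟩

/-- classification of the cycles of the fan -/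
lemma fan_cycle {u : Fin n} (c : (fan n A).Walk u u) (hc : c.IsCycle) :
    ∃ a b : ℕ, a ∈ A ∧ b ∈ A ∧ a < b ∧ c.length = b - a + 2 ∧
      ∀ f, f ∈ c.edges ↔ (∃ z w : Fin n, z.val = 0 ∧ (w.val = a + 1 ∨ w.val = b + 1) ∧ f = s(z, w)) ∨
        f ∈ lineE n (a + 1) (b + 1) := by
  -- a cycle starting at a vertex of value zero
  have main : ∀ (o : Fin n) (d : (fan n A).Walk o o), o.val = 0 → d.IsCycle →
      ∃ a b : ℕ, a ∈ A ∧ b ∈ A ∧ a < b ∧ d.length = b - a + 2 ∧
      ∀ f, f ∈ d.edges ↔ (∃ z w : Fin n, z.val = 0 ∧ (w.val = a + 1 ∨ w.val = b + 1) ∧ f = s(z, w)) ∨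
        f ∈ lineE n (a + 1) (b + 1) := by
    intro o d ho hd
    cases d with
    | nil => exact absurd hd (by simp)
    | cons h p =>
      rename_i w
      rw [Walk.cons_isCycle_iff] at hd
      obtain ⟨hp, hnot⟩ := hd
      have hwo : w ≠ o := fun hw => by subst hw; exact (fan n A).loopless.irrefl _ h
      obtain ⟨q, hq⟩ : ∃ q : (fan n A).Walk o w, q = p.reverse := ⟨_, rfl⟩
      have hqp : q.IsPath := hq ▸ hp.reverse
      have hpe : ∀ f, f ∈ p.edges ↔ f ∈ q.edges := by
        intro f; rw [hq]; simp
      have hpl : p.length = q.length := by rw [hq]; simp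
      rw [hpe] at hnot
      have hlen : (Walk.cons h p).length = q.length + 1 := by rw [Walk.length_cons, hpl]
      have hed : ∀ f, f ∈ (Walk.cons h p).edges ↔ f = s(o, w) ∨ f ∈ q.edges := by
        intro f
        rw [Walk.edges_cons, List.mem_cons, hpe]
      rw [hlen]
      simp only [hed]
      clear hq hpe hpl hlen hed hp p
      cases q with
      | nil => exact absurd rfl hwo
      | cons h' p' =>
        rename_i z
        rw [Walk.cons_isPath_iff] at hqp
        have h0 : ∀ x ∈ p'.support, 0 < x.val := by
          intro x hx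
          rcases Nat.eq_zero_or_pos x.val with h1 | h1
          · exfalso
            have : x = o := Fin.ext (by omega)
            subst this
            exact hqp.2 hx
          · exact h1
        obtain ⟨e1, e2, e3⟩ := line_path p' hqp.1 h0
        have hwz : w ≠ z := by
          rintro rfl
          apply hnot
          rw [Walk.edges_cons]
          exact List.mem_cons_self
        have hw : 0 < w.val ∧ w.val - 1 ∈ A := by
          rcases fan_adj.mp h with h | h | h
          · exact ⟨h.2.1, h.2.2⟩
          · omega
          · omega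
        have hz : 0 < z.val ∧ z.val - 1 ∈ A := by
          rcases fan_adj.mp h' with h | h | h
          · exact ⟨h.2.1, h.2.2⟩
          · omega
          · omega
        have hwzv : w.val ≠ z.val := fun hh => hwz (Fin.ext hh)
        simp only [Walk.length_cons, Walk.edges_cons, List.mem_cons, e3]
        rcases lt_or_gt_of_ne hwzv with hlt | hlt
        · rw [min_eq_right hlt.le, max_eq_left hlt.le] at *
          refine ⟨w.val - 1, z.val - 1, hw.2, hz.2, by omega, by rw [e1]; omega, ?_⟩
          intro f
          rw [show w.val - 1 + 1 = w.val by omega, show z.val - 1 + 1 = z.val by omega]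
          constructor
          · rintro (rfl | rfl | hf)
            · exact Or.inl ⟨o, w, ho, Or.inl rfl, rfl⟩
            · exact Or.inl ⟨o, z, ho, Or.inr rfl, rfl⟩
            · exact Or.inr hf
          · rintro (⟨x, y, hx, hy, rfl⟩ | hf)
            · have : x = o := Fin.ext (by omega)
              subst this
              rcases hy with hy | hy
              · left; rw [Fin.ext hy]
              · right; left; rw [Fin.ext hy]
            · exact Or.inr (Or.inr hf)
        · rw [min_eq_left hlt.le, max_eq_right hlt.le] at *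
          refine ⟨z.val - 1, w.val - 1, hz.2, hw.2, by omega, by rw [e1]; omega, ?_⟩
          intro f
          rw [show w.val - 1 + 1 = w.val by omega, show z.val - 1 + 1 = z.val by omega]
          constructor
          · rintro (rfl | rfl | hf)
            · exact Or.inl ⟨o, w, ho, Or.inr rfl, rfl⟩
            · exact Or.inl ⟨o, z, ho, Or.inl rfl, rfl⟩
            · exact Or.inr hf
          · rintro (⟨x, y, hx, hy, rfl⟩ | hf)
            · have : x = o := Fin.ext (by omega)
              subst this
              rcases hy with hy | hy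
              · right; left; rw [Fin.ext hy]
              · left; rw [Fin.ext hy]
            · exact Or.inr (Or.inr hf)
  by_cases hex : ∃ o ∈ c.support, o.val = 0
  · obtain ⟨o, ho, ho0⟩ := hex
    obtain ⟨a, b, ha, hb, hab, hlen, hed⟩ := main o (c.rotate o ho) ho0 (hc.rotate ho)
    refine ⟨a, b, ha, hb, hab, ?_, ?_⟩
    · rw [← hlen, Walk.length_rotate]
    · intro f
      rw [← hed]
      exact ((c.rotate_edges o ho).mem_iff).symm
  · exfalso
    push Not at hex
    cases c with
    | nil => exact absurd hc (by simp)
    | cons h p =>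
      rename_i w
      rw [Walk.cons_isCycle_iff] at hc
      obtain ⟨hp, hnot⟩ := hc
      have h0 : ∀ x ∈ p.support, 0 < x.val := by
        intro x hx
        exact Nat.pos_of_ne_zero (hex x (by rw [Walk.support_cons]; exact List.mem_cons_of_mem _ hx))
      obtain ⟨e1, e2, e3⟩ := line_path p hp h0
      have hu : 0 < u.val := Nat.pos_of_ne_zero (hex u (by simp))
      have hw : 0 < w.val := h0 w (by simp)
      apply hnot
      rw [e3]
      rcases fan_adj.mp h with h | h | h
      · omega
      · omega
      · rcases h.2.2 with h1 | h1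
        · exact ⟨u, w, by omega, h1, by omega, rfl⟩
        · exact ⟨w, u, by omega, h1, by omega, Sym2.eq_swap⟩

lemma fan_distinct (hA : IsSidon A) : DistinctCycleLengths (fan n A) := by
  intro u v p q hp hq hlen
  obtain ⟨a, b, ha, hb, hab, h1, h2⟩ := fan_cycle p hp
  obtain ⟨a', b', ha', hb', hab', h1', h2'⟩ := fan_cycle q hq
  have h3 : b + a' = b' + a := by omega
  obtain ⟨e1, e2⟩ | ⟨e1, e2⟩ := hA b hb a' ha' b' hb' a ha h3
  · intro f
    rw [h2, h2', e1, e2]
  · omega

end Pool.Agent.Hhelper78.Cyc
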