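import Pool.Agent.Hhelper78.Cyc.Parallel
import Pool.Agent.Hhelper78.Cyc.Fan

/-!
# Numbers of edges
-/

namespace Pool.Agent.Hhelper78.Cyc

open SimpleGraph

lemma Lab.isHamiltonian {V : Type*} [Fintype V] [DecidableEq V] {G : SimpleGraph V} {n : ℕ}
    (L : Lab G n) (hcard : Fintype.card V = n) : G.IsHamiltonian := by
  intro _
  have hn := L.three_le
  obtain ⟨w, h1, -, -, -, h5⟩ := L.piece_up (a := 0) (b := n - 1) (by omega) (by omega)
  have hadj : G.Adj (L.v (n - 1)) (L.v 0) := by
    have := L.adj (n - 1)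
    rwa [Nat.sub_add_cancel (by omega), L.v_n] at this
  refine ⟨_, Walk.cons hadj w, ?_⟩
  rw [Walk.isHamiltonianCycle_iff_isCycle_and_length_eq]
  constructor
  · rw [Walk.cons_isCycle_iff]
    refine ⟨h1, fun hmem => ?_⟩
    rw [Sym2.eq_swap] at hmem
    have := h1.length_eq_one_of_mem_edges hmem
    omega
  · rw [Walk.length_cons, h5, hcard]
    omega

lemma ncard_edges_le {V : Type*} [Fintype V] [DecidableEq V] {G : SimpleGraph V} {n : ℕ}
    (L : Lab G n) : G.edgeSet.ncard ≤ n + (chords G L.ham).card := by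
  classical
  have hn := L.three_le
  have hsub : G.edgeSet ⊆ (((Finset.range n).image fun i => s(L.v i, L.v (i + 1))) ∪
      chords G L.ham : Finset (Sym2 V)) := by
    intro f hf
    rw [Finset.coe_union, Set.mem_union, Finset.mem_coe, Finset.mem_coe]
    by_cases hh : f ∈ L.ham
    · left
      obtain ⟨i, rfl⟩ := hh
      rw [Finset.mem_image]
      refine ⟨i % n, Finset.mem_range.mpr (Nat.mod_lt _ (by omega)), ?_⟩
      have e1 : L.v (i % n) = L.v i := (L.eq_iff _ _).mpr (Nat.mod_modEq _ _)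
      have e2 : L.v (i % n + 1) = L.v (i + 1) :=
        (L.eq_iff _ _).mpr ((Nat.mod_modEq _ _).add_right 1)
      rw [e1, e2]
    · right
      exact mem_chords.mpr ⟨hf, hh⟩
  calc G.edgeSet.ncard ≤ _ := Set.ncard_le_ncard hsub (Finset.finite_toSet _)
    _ = _ := Set.ncard_coe_finset _
    _ ≤ _ := Finset.card_union_le _ _
    _ ≤ n + (chords G L.ham).card := by
        gcongr
        exact Finset.card_image_le.trans (by simp)

/-- the labelling of the fan -/
def fanLab {n : ℕ} (hn : 3 ≤ n) {A : Finset ℕ} (h0 : 0 ∈ A) (h1 : n - 2 ∈ A) :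
    Lab (fan n A) n where
  v i := ⟨i % n, Nat.mod_lt _ (by omega)⟩
  adj i := by
    have hi : i % n < n := Nat.mod_lt _ (by omega)
    rw [fan_adj]
    simp only
    rcases lt_or_ge (i % n + 1) n with h | h
    · have e : (i + 1) % n = i % n + 1 := by
        rw [Nat.add_mod, Nat.mod_eq_of_lt (show 1 < n by omega), Nat.mod_eq_of_lt h]
      rw [e]
      rcases Nat.eq_zero_or_pos (i % n) with h2 | h2
      · left
        refine ⟨h2, by omega, ?_⟩
        rw [h2]
        exact h0
      · right; right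
        exact ⟨h2, by omega, Or.inl rfl⟩
    · have h2 : i % n + 1 = n := by omega
      have e : (i + 1) % n = 0 := by
        rw [Nat.add_mod, Nat.mod_eq_of_lt (show 1 < n by omega), h2, Nat.mod_self]
      rw [e]
      right; left
      refine ⟨rfl, by omega, ?_⟩
      rw [show i % n - 1 = n - 2 by omega]
      exact h1
  eq_iff i j := by
    rw [Fin.ext_iff]
    rfl
  surj x := ⟨x.val, Fin.ext (Nat.mod_eq_of_lt x.isLt)⟩
  three_le := hn

lemma ncard_fan {n : ℕ} (hn : 3 ≤ n) {A : Finset ℕ} (hA : A ⊆ Finset.range (n - 1)) :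
    n - 2 + A.card ≤ (fan n A).edgeSet.ncard := by
  classical
  let F : ℕ → Fin n := fun i => ⟨i % n, Nat.mod_lt _ (by omega)⟩
  have hF : ∀ i < n, (F i).val = i := fun i hi => Nat.mod_eq_of_lt hi
  let T₁ : Finset (Sym2 (Fin n)) := A.image fun a => s(F 0, F (a + 1))
  let T₂ : Finset (Sym2 (Fin n)) := (Finset.Icc 1 (n - 2)).image fun i => s(F i, F (i + 1))
  have hc1 : T₁.card = A.card := by
    apply Finset.card_image_of_injOn
    intro a ha b hb h
    have ha' := Finset.mem_range.mp (hA ha)
    have hb' := Finset.mem_range.mp (hA hb)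
    simp only [Sym2.eq_iff, Fin.ext_iff] at h
    rw [hF 0 (by omega), hF (a + 1) (by omega), hF (b + 1) (by omega)] at h
    omega
  have hc2 : T₂.card = n - 2 := by
    have : T₂.card = (Finset.Icc 1 (n - 2)).card := by
      apply Finset.card_image_of_injOn
      intro a ha b hb h
      rw [Finset.mem_coe, Finset.mem_Icc] at ha hb
      simp only [Sym2.eq_iff, Fin.ext_iff] at h
      rw [hF a (by omega), hF b (by omega), hF (a + 1) (by omega), hF (b + 1) (by omega)] at h
      omega
    rw [this, Nat.card_Icc]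
    omega
  have hdis : Disjoint T₂ T₁ := by
    rw [Finset.disjoint_left]
    intro f h2 h1
    simp only [T₁, T₂, Finset.mem_image, Finset.mem_Icc] at h1 h2
    obtain ⟨a, ha, rfl⟩ := h1
    obtain ⟨i, hi, h⟩ := h2
    have ha' := Finset.mem_range.mp (hA ha)
    simp only [Sym2.eq_iff, Fin.ext_iff] at h
    rw [hF 0 (by omega), hF (a + 1) (by omega), hF i (by omega), hF (i + 1) (by omega)] at h
    omega
  calc n - 2 + A.card = (T₂ ∪ T₁).card := by rw [Finset.card_union_of_disjoint hdis, hc1, hc2]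
    _ = ((T₂ ∪ T₁ : Finset (Sym2 (Fin n))) : Set (Sym2 (Fin n))).ncard :=
        (Set.ncard_coe_finset _).symm
    _ ≤ (fan n A).edgeSet.ncard := by
        apply Set.ncard_le_ncard _ (Set.toFinite _)
        intro f hf
        rw [Finset.coe_union, Set.mem_union, Finset.mem_coe, Finset.mem_coe] at hf
        simp only [T₁, T₂, Finset.mem_image, Finset.mem_Icc] at hf
        rcases hf with ⟨i, hi, rfl⟩ | ⟨a, ha, rfl⟩
        · rw [mem_edgeSet, fan_adj]
          right; right
          rw [hF i (by omega), hF (i + 1) (by omega)]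
          omega
        · have ha' := Finset.mem_range.mp (hA ha)
          rw [mem_edgeSet, fan_adj]
          left
          rw [hF 0 (by omega), hF (a + 1) (by omega)]
          exact ⟨rfl, by omega, ha⟩

lemma bddAbove_h (n : ℕ) : BddAbove {m : ℕ | ∃ G : SimpleGraph (Fin n), G.IsHamiltonian ∧
    DistinctCycleLengths G ∧ G.edgeSet.ncard = m} := by
  refine ⟨(Set.univ : Set (Sym2 (Fin n))).ncard, ?_⟩
  rintro m ⟨G, -, -, rfl⟩
  exact Set.ncard_le_ncard (Set.subset_univ _) (Set.toFinite _)

/-- **Lower bound** -/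
theorem le_h {n : ℕ} (hn : 3 ≤ n) {A : Finset ℕ} (hA : A ⊆ Finset.range (n - 1)) (h0 : 0 ∈ A)
    (h1 : n - 2 ∈ A) (hS : IsSidon A) : n - 2 + A.card ≤ h n := by
  refine (ncard_fan hn hA).trans ?_
  exact le_csSup (bddAbove_h n) ⟨fan n A, (fanLab hn h0 h1).isHamiltonian (Fintype.card_fin n),
    fan_distinct hS, rfl⟩

/-- a maximiser exists -/
theorem exists_max {n : ℕ} (hn : 3 ≤ n) : ∃ G : SimpleGraph (Fin n), G.IsHamiltonian ∧
    DistinctCycleLengths G ∧ G.edgeSet.ncard = h n := by
  have hne : {m : ℕ | ∃ G : SimpleGraph (Fin n), G.IsHamiltonian ∧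
    DistinctCycleLengths G ∧ G.edgeSet.ncard = m}.Nonempty := by
    refine ⟨_, fan n {0, n - 2}, (fanLab hn (by simp) (by simp)).isHamiltonian
      (Fintype.card_fin n), fan_distinct ?_, rfl⟩
    intro a ha b hb c hc d hd h
    simp only [Finset.mem_insert, Finset.mem_singleton] at ha hb hc hd
    omega
  exact Nat.sSup_mem hne (bddAbove_h n)

end Pool.Agent.Hhelper78.Cyc
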