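import Pool.Agent.Hhelper78.Cyc.Ruler
import Pool.Agent.Lib.PNT

/-!
# The asymptotics of `h n`
-/

namespace Pool.Agent.Hhelper78.Cyc

open Finset Filter Topology

/-- lower bound -/
theorem le_h_asymp {δ : ℝ} (hδ : 0 < δ) (hδ1 : δ ≤ 1) :
    ∀ᶠ n : ℕ in atTop, (n : ℝ) + (1 - δ) * √(n : ℝ) ≤ h n := by
  have hε : 0 < δ ^ 2 / 32 := by positivity
  have hsq : Tendsto (fun n : ℕ => √(n : ℝ)) atTop atTop :=
    Real.tendsto_sqrt_atTop.comp tendsto_natCast_atTop_atTop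
  have hev := hsq.eventually (Pool.Agent.Lib.PNT.exists_prime_Ioc hε)
  have hev2 := hsq.eventually (eventually_ge_atTop (160 / δ ^ 2))
  filter_upwards [hev, hev2, eventually_ge_atTop 3] with n hp hbig hn
  obtain ⟨q, hq, hq1, hq2⟩ := hp
  set s := √(n : ℝ) with hs
  have hs0 : 0 ≤ s := Real.sqrt_nonneg _
  have hss : s ^ 2 = n := Real.sq_sqrt (by positivity)
  have hn3 : (3 : ℝ) ≤ n := by exact_mod_cast hn
  have hs1 : 1 ≤ s := by nlinarith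
  have hL : n - 2 < q ^ 2 + q + 1 := by
    have : (n : ℝ) < q ^ 2 := by rw [← hss]; gcongr
    have : n < q ^ 2 := by exact_mod_cast this
    omega
  obtain ⟨k, hk1, hk2⟩ := le_h_of_prime hq hn hL
  have hk1' : (n : ℝ) + q ≤ h n + 1 + k := by exact_mod_cast hk1
  have hk2' : (k : ℝ) ^ 2 ≤ 2 * k + 2 * ((q : ℝ) ^ 2 + q - (n - 2)) := by
    have : ((q ^ 2 + q - (n - 2) : ℕ) : ℝ) = (q : ℝ) ^ 2 + q - (n - 2) := by
      rw [Nat.cast_sub (by omega), Nat.cast_sub (by omega)]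
      push_cast
      ring
    rw [← this]
    exact_mod_cast hk2
  have hbig' : 160 ≤ δ ^ 2 * s := by
    rw [div_le_iff₀ (by positivity)] at hbig
    linarith
  have hδs : 160 ≤ δ * s := by
    have : δ ^ 2 * s ≤ δ * s := by
      have : δ ^ 2 ≤ δ := by nlinarith
      gcongr
    linarith
  -- q ≤ 2 s
  have hq3 : (q : ℝ) ≤ 2 * s := by
    have : δ ^ 2 / 32 ≤ 1 := by nlinarith
    nlinarith
  have hq4 : (q : ℝ) ^ 2 ≤ s ^ 2 + 3 * (δ ^ 2 / 32) * s ^ 2 := by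
    have e1 : (q : ℝ) ^ 2 ≤ ((1 + δ ^ 2 / 32) * s) ^ 2 := by gcongr
    have e2 : (1 + δ ^ 2 / 32) ^ 2 ≤ 1 + 3 * (δ ^ 2 / 32) := by
      have : δ ^ 2 / 32 ≤ 1 := by nlinarith
      nlinarith
    calc _ ≤ _ := e1
      _ = (1 + δ ^ 2 / 32) ^ 2 * s ^ 2 := by ring
      _ ≤ (1 + 3 * (δ ^ 2 / 32)) * s ^ 2 := by gcongr
      _ = _ := by ring
  have hk3 : ((k : ℝ) - 1) ^ 2 ≤ (δ * s / 2) ^ 2 := by
    have e3 : 160 * s ≤ δ ^ 2 * s * s := by gcongr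
    nlinarith
  have hk4 := (abs_le_of_sq_le_sq' hk3 (by positivity)).2
  nlinarith

theorem tendsto_h : Tendsto (fun n : ℕ => ((h n : ℝ) - n) / √(n : ℝ)) atTop (𝓝 1) := by
  rw [Metric.tendsto_atTop]
  intro ε hε
  obtain ⟨δ, hδ, hδ1, hδε⟩ : ∃ δ : ℝ, 0 < δ ∧ δ ≤ 1 ∧ δ < ε :=
    ⟨min 1 (ε / 2), by positivity, min_le_left _ _, (min_le_right _ _).trans_lt (by linarith)⟩
  have hsq : Tendsto (fun n : ℕ => √(n : ℝ)) atTop atTop :=
    Real.tendsto_sqrt_atTop.comp tendsto_natCast_atTop_atTop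
  have hev2 := hsq.eventually (eventually_gt_atTop ((88 / ε) ^ 2))
  have h := (le_h_asymp hδ hδ1).and (hev2.and (eventually_ge_atTop 3))
  rw [eventually_atTop] at h
  obtain ⟨N, hN⟩ := h
  refine ⟨N, fun n hn => ?_⟩
  obtain ⟨h1, h2, h3⟩ := hN n hn
  have hup := h_le n h3
  obtain ⟨q, hq, hqn, hq2, hq1⟩ := exists_root n (by omega)
  rw [hq2, hq1] at hup
  rw [hq2] at h1 h2 ⊢
  have hq0 : 0 < q ^ 2 := by positivity
  rw [Real.dist_eq, abs_lt]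
  have h88 : 88 < ε * q := by
    have : 88 / ε < q := lt_of_pow_lt_pow_left₀ 2 (by positivity) h2
    rw [div_lt_iff₀ hε] at this
    linarith
  constructor
  · rw [lt_sub_iff_add_lt, lt_div_iff₀ hq0]
    nlinarith
  · rw [sub_lt_iff_lt_add, div_lt_iff₀ hq0]
    nlinarith

/-- comparison with Sidon sets, for all `n` -/
theorem h_le_sidon_all : ∃ C : ℝ, ∀ n : ℕ, 3 ≤ n → ∃ S : Finset ℕ, S ⊆ Icc 1 n ∧ IsSidon S ∧
    (h n : ℝ) ≤ n + S.card + C * (n : ℝ) ^ (1 / 4 : ℝ) := by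
  have h := le_h_asymp (δ := 1 / 2) (by norm_num) (by norm_num)
  rw [eventually_atTop] at h
  obtain ⟨N, hN⟩ := h
  refine ⟨88 + √(N : ℝ), fun n hn => ?_⟩
  obtain ⟨q, hq, hqn, hq2, hq1⟩ := exists_root n (by omega)
  rcases le_total N n with hle | hle
  · have e := hN n hle
    obtain ⟨S, h1, h2, h3⟩ := h_le_sidon n hn (by linarith)
    refine ⟨S, h1, h2, h3.trans ?_⟩
    rw [hq1]
    nlinarith [Real.sqrt_nonneg (N : ℝ)]
  · refine ⟨∅, by simp, by intro a ha; simp at ha, ?_⟩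
    have := h_le n hn
    rw [hq1] at this ⊢
    have e1 : √(n : ℝ) ≤ √(N : ℝ) := Real.sqrt_le_sqrt (by exact_mod_cast hle)
    have e2 : √(N : ℝ) ≤ √(N : ℝ) * q := le_mul_of_one_le_right (Real.sqrt_nonneg _) hq
    simp only [card_empty, Nat.cast_zero]
    linarith

end Pool.Agent.Hhelper78.Cyc
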