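import Pool.Agent.Hhelper78.Cyc.Defs

/-!
# Labelling a Hamiltonian cycle, and building cycles from arcs and chords
-/

namespace Pool.Agent.Hhelper78.Cyc

open SimpleGraph

variable {V : Type*} {G : SimpleGraph V} {n : ℕ}

/-- A periodic labelling of a Hamiltonian cycle. -/
structure Lab (G : SimpleGraph V) (n : ℕ) where
  v : ℕ → V
  adj : ∀ i, G.Adj (v i) (v (i + 1))
  eq_iff : ∀ i j, v i = v j ↔ i ≡ j [MOD n]
  surj : ∀ x, ∃ i, v i = x
  three_le : 3 ≤ n

/-- There is a cycle of length `l` whose edges outside `H` are exactly the elements of `K`. -/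
def HasCyc (G : SimpleGraph V) (H K : Set (Sym2 V)) (l : ℕ) : Prop :=
  ∃ (u : V) (c : G.Walk u u), c.IsCycle ∧ (∀ f, f ∉ H → (f ∈ c.edges ↔ f ∈ K)) ∧ c.length = l

namespace Lab

variable (L : Lab G n)

/-- the edges of the Hamiltonian cycle -/
def ham : Set (Sym2 V) := {f | ∃ i, f = s(L.v i, L.v (i + 1))}

lemma ne_of {i j : ℕ} (hne : i ≠ j) (h1 : i < j + n) (h2 : j < i + n) : L.v i ≠ L.v j := by
  intro h
  rw [L.eq_iff] at h
  rcases lt_or_ge i j with hij | hij
  · have h3 := (Nat.modEq_iff_dvd' hij.le).mp h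
    have := Nat.le_of_dvd (by omega) h3
    omega
  · have h3 := (Nat.modEq_iff_dvd' hij).mp h.symm
    have := Nat.le_of_dvd (by omega) h3
    omega

lemma v_add (i : ℕ) : L.v (i + n) = L.v i := by
  rw [L.eq_iff]
  exact Nat.add_modEq_right

lemma v_add' (i : ℕ) : L.v (n + i) = L.v i := by
  rw [add_comm, L.v_add]

lemma v_n : L.v n = L.v 0 := by
  have := L.v_add 0
  rwa [zero_add] at this

/-- `A path from v a to v b visiting only labels in S, whose chords are exactly K`. -/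
def Piece (a b : ℕ) (S : Set ℕ) (K : Set (Sym2 V)) (l : ℕ) : Prop :=
  ∃ w : G.Walk (L.v a) (L.v b), w.IsPath ∧ (∀ x ∈ w.support, ∃ i ∈ S, L.v i = x) ∧
    (∀ f ∈ w.edges, f ∈ L.ham ∨ f ∈ K) ∧ (∀ f ∈ K, f ∈ w.edges) ∧ w.length = l

lemma piece_nil (a : ℕ) : L.Piece a a (Set.Icc a a) ∅ 0 :=
  ⟨Walk.nil, by simp, by simp, by simp, by simp, by simp⟩

lemma piece_up {a b : ℕ} (hab : a ≤ b) (hn : b < a + n) : L.Piece a b (Set.Icc a b) ∅ (b - a) := by
  obtain ⟨d, rfl⟩ := Nat.exists_eq_add_of_le hab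
  induction d with
  | zero => simpa using L.piece_nil a
  | succ d ih =>
    obtain ⟨w, h1, h2, h3, h4, h5⟩ := ih (by omega) (by omega)
    have hadj := L.adj (a + d)
    refine ⟨w.concat hadj, ?_, ?_, ?_, by simp, ?_⟩
    · rw [Walk.concat_isPath_iff]
      refine ⟨h1, fun hmem => ?_⟩
      obtain ⟨i, hi, hi'⟩ := h2 _ hmem
      rw [Set.mem_Icc] at hi
      exact L.ne_of (i := i) (j := a + d + 1) (by omega) (by omega) (by omega) hi'
    · intro x hx
      rw [Walk.support_concat, List.mem_append] at hx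
      rcases hx with hx | hx
      · obtain ⟨i, hi, hi'⟩ := h2 x hx
        rw [Set.mem_Icc] at hi
        exact ⟨i, Set.mem_Icc.mpr ⟨hi.1, by omega⟩, hi'⟩
      · rw [List.mem_singleton] at hx
        exact ⟨a + (d + 1), Set.mem_Icc.mpr ⟨by omega, le_rfl⟩, hx.symm⟩
    · intro f hf
      rw [Walk.edges_concat, List.concat_eq_append, List.mem_append] at hf
      rcases hf with hf | hf
      · exact h3 f hf
      · rw [List.mem_singleton] at hf
        exact Or.inl ⟨a + d, hf⟩
    · rw [Walk.length_concat, h5]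
      omega

lemma piece_rev {a b : ℕ} {S : Set ℕ} {K : Set (Sym2 V)} {l : ℕ} (h : L.Piece a b S K l) :
    L.Piece b a S K l := by
  obtain ⟨w, h1, h2, h3, h4, h5⟩ := h
  exact ⟨w.reverse, h1.reverse, by simpa using h2, by simpa using h3, by simpa using h4,
    by simpa using h5⟩

lemma piece_down {a b : ℕ} (hab : a ≤ b) (hn : b < a + n) : L.Piece b a (Set.Icc a b) ∅ (b - a) :=
  L.piece_rev (L.piece_up hab hn)

lemma piece_glue {a b c d : ℕ} {S₁ S₂ : Set ℕ} {K₁ K₂ : Set (Sym2 V)} {l₁ l₂ : ℕ}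
    (h₁ : L.Piece a b S₁ K₁ l₁) (hadj : G.Adj (L.v b) (L.v c)) (h₂ : L.Piece c d S₂ K₂ l₂)
    (hd : ∀ i ∈ S₁, ∀ j ∈ S₂, i ≠ j ∧ i < j + n ∧ j < i + n) :
    L.Piece a d (S₁ ∪ S₂) (K₁ ∪ {s(L.v b, L.v c)} ∪ K₂) (l₁ + 1 + l₂) := by
  obtain ⟨w, h1, h2, h3, h4, h5⟩ := h₁
  obtain ⟨w', h1', h2', h3', h4', h5'⟩ := h₂
  refine ⟨w.append (Walk.cons hadj w'), ?_, ?_, ?_, ?_, ?_⟩
  · rw [Walk.isPath_def, Walk.support_append, Walk.support_cons, List.tail_cons]
    rw [List.nodup_append]
    refine ⟨h1.support_nodup, h1'.support_nodup, ?_⟩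
    rintro x hx y hy rfl
    obtain ⟨i, hi, hi'⟩ := h2 x hx
    obtain ⟨j, hj, hj'⟩ := h2' x hy
    obtain ⟨e1, e2, e3⟩ := hd i hi j hj
    exact L.ne_of e1 e2 e3 (hi'.trans hj'.symm)
  · intro x hx
    rw [Walk.support_append, Walk.support_cons, List.tail_cons, List.mem_append] at hx
    rcases hx with hx | hx
    · obtain ⟨i, hi, hi'⟩ := h2 x hx
      exact ⟨i, Or.inl hi, hi'⟩
    · obtain ⟨i, hi, hi'⟩ := h2' x hx
      exact ⟨i, Or.inr hi, hi'⟩
  · intro f hf
    rw [Walk.edges_append, Walk.edges_cons, List.mem_append, List.mem_cons] at hf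
    rcases hf with hf | hf | hf
    · rcases h3 f hf with h | h
      · exact Or.inl h
      · exact Or.inr (Or.inl (Or.inl h))
    · exact Or.inr (Or.inl (Or.inr hf))
    · rcases h3' f hf with h | h
      · exact Or.inl h
      · exact Or.inr (Or.inr h)
  · intro f hf
    rw [Walk.edges_append, Walk.edges_cons, List.mem_append, List.mem_cons]
    rcases hf with (hf | hf) | hf
    · exact Or.inl (h4 f hf)
    · exact Or.inr (Or.inl hf)
    · exact Or.inr (Or.inr (h4' f hf))
  · rw [Walk.length_append, Walk.length_cons, h5, h5']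
    omega

lemma hasCyc_of_piece {a b : ℕ} {S : Set ℕ} {K : Set (Sym2 V)} {l : ℕ}
    (h : L.Piece a b S K l) (hadj : G.Adj (L.v b) (L.v a)) (hh : s(L.v b, L.v a) ∉ L.ham)
    (hK : s(L.v b, L.v a) ∉ K) : HasCyc G L.ham ({s(L.v b, L.v a)} ∪ K) (l + 1) := by
  obtain ⟨w, h1, h2, h3, h4, h5⟩ := h
  refine ⟨_, Walk.cons hadj w, ?_, ?_, ?_⟩
  · rw [Walk.cons_isCycle_iff]
    refine ⟨h1, fun hmem => ?_⟩
    rcases h3 _ hmem with h | h
    · exact hh h
    · exact hK h
  · intro f hf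
    rw [Walk.edges_cons, List.mem_cons, Set.mem_union, Set.mem_singleton_iff]
    constructor
    · rintro (h | h)
      · exact Or.inl h
      · exact Or.inr ((h3 f h).resolve_left hf)
    · rintro (h | h)
      · exact Or.inl h
      · exact Or.inr (h4 f h)
  · rw [Walk.length_cons, h5]

/-- shift the labelling -/
def rot (r : ℕ) : Lab G n where
  v i := L.v (i + r)
  adj i := by
    have := L.adj (i + r)
    rwa [show i + r + 1 = i + 1 + r by ring] at this
  eq_iff i j := by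
    rw [L.eq_iff]
    exact ⟨fun h => Nat.ModEq.add_right_cancel' r h, fun h => Nat.ModEq.add_right r h⟩
  surj x := by
    obtain ⟨i, hi⟩ := L.surj x
    refine ⟨i + r * n - r, ?_⟩
    have h0 := L.three_le
    have h1 : r ≤ i + r * n := by nlinarith
    rw [Nat.sub_add_cancel h1, ← hi, L.eq_iff]
    unfold Nat.ModEq
    rw [Nat.add_mul_mod_self_right]
  three_le := L.three_le

lemma v_mul (i k : ℕ) : L.v (i + k * n) = L.v i := by
  rw [L.eq_iff]
  unfold Nat.ModEq
  rw [Nat.add_mul_mod_self_right]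

lemma rot_ham (r : ℕ) : (L.rot r).ham = L.ham := by
  ext f
  constructor
  · rintro ⟨i, rfl⟩
    refine ⟨i + r, ?_⟩
    change s(L.v (i + r), L.v (i + 1 + r)) = _
    rw [show i + 1 + r = i + r + 1 by ring]
  · rintro ⟨i, rfl⟩
    have h0 := L.three_le
    have h1 : r ≤ i + r * n := by nlinarith
    refine ⟨i + r * n - r, ?_⟩
    change _ = s(L.v (i + r * n - r + r), L.v (i + r * n - r + 1 + r))
    rw [show i + r * n - r + r = i + r * n by omega,
      show i + r * n - r + 1 + r = i + 1 + r * n by omega, L.v_mul, L.v_mul]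

lemma modEq_mirror (i : ℕ) (hn : 3 ≤ n) : (n - 1) * i + i ≡ 0 [MOD n] := by
  have : (n - 1) * i + i = n * i := by
    obtain ⟨m, rfl⟩ : ∃ m, n = m + 1 := ⟨n - 1, by omega⟩
    rw [Nat.add_sub_cancel]; ring
  rw [this]
  exact (Nat.modEq_zero_iff_dvd).mpr (Dvd.intro _ rfl)

/-- reverse the labelling -/
def mir : Lab G n where
  v i := L.v ((n - 1) * i)
  adj i := by
    have h0 := L.three_le
    have h1 := L.adj ((n - 1) * (i + 1))
    have h2 : (n - 1) * (i + 1) + 1 = (n - 1) * i + n := by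
      obtain ⟨m, rfl⟩ : ∃ m, n = m + 1 := ⟨n - 1, by omega⟩
      rw [Nat.add_sub_cancel]; ring
    rw [h2, L.v_add] at h1
    exact h1.symm
  eq_iff i j := by
    have h0 := L.three_le
    rw [L.eq_iff]
    constructor
    · intro h
      refine Nat.ModEq.cancel_left_of_coprime ?_ h
      have : Nat.Coprime (n - 1 + 1) (n - 1) := by simp
      rwa [Nat.sub_add_cancel (by omega)] at this
    · intro h
      exact Nat.ModEq.mul_left _ h
  surj x := by
    have h0 := L.three_le
    obtain ⟨i, hi⟩ := L.surj x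
    refine ⟨(n - 1) * i, ?_⟩
    rw [← hi, L.eq_iff]
    have h1 := modEq_mirror (n := n) i h0
    have h2 := modEq_mirror (n := n) ((n - 1) * i) h0
    have h3 : (n - 1) * ((n - 1) * i) + (n - 1) * i ≡ i + (n - 1) * i [MOD n] := by
      rw [add_comm i]
      exact h2.trans h1.symm
    exact Nat.ModEq.add_right_cancel' _ h3
  three_le := L.three_le

lemma mir_v {i : ℕ} (hi : i ≤ n) : L.mir.v i = L.v (n - i) := by
  change L.v ((n - 1) * i) = _
  rw [L.eq_iff]
  have h1 := modEq_mirror (n := n) i L.three_le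
  have h2 : (n - 1) * i + i ≡ (n - i) + i [MOD n] := by
    rw [Nat.sub_add_cancel hi]
    refine h1.trans ?_
    exact (Nat.modEq_zero_iff_dvd.mpr dvd_rfl).symm
  exact Nat.ModEq.add_right_cancel' _ h2

lemma mir_ham_sub : L.mir.ham ⊆ L.ham := by
  rintro f ⟨i, rfl⟩
  have h0 := L.three_le
  refine ⟨(n - 1) * (i + 1), ?_⟩
  have h2 : (n - 1) * (i + 1) + 1 = (n - 1) * i + n := by
    obtain ⟨m, rfl⟩ : ∃ m, n = m + 1 := ⟨n - 1, by omega⟩
    rw [Nat.add_sub_cancel]; ring
  rw [h2, L.v_add]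
  exact Sym2.eq_swap

lemma mir_ham : L.mir.ham = L.ham := by
  refine Set.Subset.antisymm L.mir_ham_sub ?_
  rintro f ⟨i, rfl⟩
  have h0 := L.three_le
  -- `i = -(-i)`; take `j` with `(n-1)*(j+1) ≡ i`
  obtain ⟨j, hj⟩ : ∃ j, (n - 1) * (j + 1) ≡ i [MOD n] := by
    refine ⟨(n - 1) * i + n - 1, ?_⟩
    rw [show (n - 1) * i + n - 1 + 1 = (n - 1) * i + n by omega, mul_add]
    have h1 := modEq_mirror (n := n) i h0
    have h2 := modEq_mirror (n := n) ((n - 1) * i) h0
    have h3 : (n - 1) * ((n - 1) * i) + (n - 1) * i ≡ i + (n - 1) * i [MOD n] := by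
      rw [add_comm i]
      exact h2.trans h1.symm
    have h4 := Nat.ModEq.add_right_cancel' _ h3
    have h5 : (n - 1) * n ≡ 0 [MOD n] := Nat.modEq_zero_iff_dvd.mpr (Dvd.intro_left _ rfl)
    simpa using h4.add h5
  refine ⟨j, ?_⟩
  change s(L.v i, L.v (i + 1)) = s(L.v ((n - 1) * j), L.v ((n - 1) * (j + 1)))
  have h2 : (n - 1) * (j + 1) + 1 = (n - 1) * j + n := by
    obtain ⟨m, rfl⟩ : ∃ m, n = m + 1 := ⟨n - 1, by omega⟩
    rw [Nat.add_sub_cancel]; ring
  have e1 : L.v i = L.v ((n - 1) * (j + 1)) := (L.eq_iff _ _).mpr hj.symm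
  have e2 : L.v (i + 1) = L.v ((n - 1) * j) := by
    rw [← L.v_add ((n - 1) * j), ← h2, L.eq_iff]
    exact (hj.add_right 1).symm
  rw [e1, e2]
  exact Sym2.eq_swap

end Lab

/-- A Hamiltonian graph has a labelling. -/
lemma exists_lab {n : ℕ} (hn : 3 ≤ n) {G : SimpleGraph (Fin n)} (hG : G.IsHamiltonian) :
    Nonempty (Lab G n) := by
  classical
  obtain ⟨a, p, hp⟩ := hG (by rw [Fintype.card_fin]; omega)
  have hlen : p.length = n := by rw [hp.length_eq, Fintype.card_fin]
  have hcyc := hp.isCycle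
  have hinj : ∀ i < n, ∀ j < n, p.getVert i = p.getVert j → i = j := by
    intro i hi j hj hij
    exact hcyc.getVert_injOn' (by simp; omega) (by simp; omega) hij
  have hsurj : ∀ x, ∃ i < n, p.getVert i = x := by
    intro x
    have hx := hp.mem_support x
    rw [Walk.mem_support_iff_exists_getVert] at hx
    obtain ⟨i, hi, hi'⟩ := hx
    rcases lt_or_ge i n with h | h
    · exact ⟨i, h, hi⟩
    · have : i = p.length := by omega
      refine ⟨0, by omega, ?_⟩
      rw [Walk.getVert_zero, ← hi, this, Walk.getVert_length]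
  refine ⟨⟨fun i => p.getVert (i % n), ?_, ?_, ?_, hn⟩⟩
  · intro i
    have hi : i % n < n := Nat.mod_lt _ (by omega)
    have h1 := p.adj_getVert_succ (i := i % n) (by omega)
    rcases lt_or_ge (i % n + 1) n with h | h
    · have : (i + 1) % n = i % n + 1 := by
        rw [Nat.add_mod, Nat.mod_eq_of_lt (show 1 < n by omega), Nat.mod_eq_of_lt h]
      rw [this]; exact h1
    · have h2 : i % n + 1 = n := by omega
      have : (i + 1) % n = 0 := by
        rw [Nat.add_mod, Nat.mod_eq_of_lt (show 1 < n by omega), h2, Nat.mod_self]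
      rw [this, Walk.getVert_zero]
      have h3 : i % n + 1 = p.length := by omega
      rwa [h3, Walk.getVert_length] at h1
  · intro i j
    constructor
    · intro h
      exact hinj _ (Nat.mod_lt _ (by omega)) _ (Nat.mod_lt _ (by omega)) h
    · intro h
      have h' : i % n = j % n := h
      rw [h']
  · intro x
    obtain ⟨i, hi, hx⟩ := hsurj x
    exact ⟨i, by rw [Nat.mod_eq_of_lt hi]; exact hx⟩

end Pool.Agent.Hhelper78.Cyc
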