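import Pool.Agent.Hhelper78.Cyc.Defs

/-!
# The Erdős–Turán bound for Sidon sets
-/

namespace Pool.Agent.Hhelper78.Cyc

open Finset

/-- sum of `(T - d)` over distinct differences -/
lemma sum_diff_le {S : Finset ℕ} (hS : IsSidon S) (T : ℕ) :
    ∑ p ∈ (S ×ˢ S).filter (fun p => p.1 < p.2), (T - (p.2 - p.1)) ≤ ∑ d ∈ range T, d := by
  classical
  let D := (S ×ˢ S).filter (fun p : ℕ × ℕ => p.1 < p.2)
  have hinj : Set.InjOn (fun p : ℕ × ℕ => p.2 - p.1) (D : Set (ℕ × ℕ)) := by
    intro p hp q hq h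
    simp only [D, coe_filter, mem_product, Set.mem_ofPred_eq] at hp hq
    have h' : p.2 - p.1 = q.2 - q.1 := h
    have h2 : p.2 + q.1 = q.2 + p.1 := by omega
    rcases hS p.2 hp.1.2 q.1 hq.1.1 q.2 hq.1.2 p.1 hp.1.1 h2 with ⟨a, b⟩ | ⟨a, b⟩
    · exact Prod.ext b.symm a
    · omega
  have h1 : ∑ p ∈ D, (T - (p.2 - p.1)) = ∑ d ∈ D.image (fun p => p.2 - p.1), (T - d) :=
    (sum_image (f := fun d => T - d) hinj).symm
  have h2 : ∑ d ∈ D.image (fun p => p.2 - p.1), (T - d) ≤ ∑ d ∈ Icc 1 T, (T - d) := by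
    rw [← sum_filter_add_sum_filter_not (D.image fun p => p.2 - p.1) (fun d => d ≤ T)]
    have h3 : ∑ d ∈ (D.image fun p => p.2 - p.1) with ¬ d ≤ T, (T - d) = 0 := by
      apply sum_eq_zero
      intro d hd
      rw [mem_filter] at hd
      omega
    rw [h3, add_zero]
    apply sum_le_sum_of_subset
    intro d hd
    rw [mem_filter, mem_image] at hd
    obtain ⟨⟨p, hp, rfl⟩, hd⟩ := hd
    simp only [D, mem_filter] at hp
    rw [mem_Icc]
    omega
  have h4 : ∑ d ∈ Icc 1 T, (T - d) = ∑ d ∈ range T, d := by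
    refine sum_nbij' (fun d => T - d) (fun d => T - d) ?_ ?_ ?_ ?_ ?_
    · intro d hd; rw [mem_Icc] at hd; rw [mem_range]; omega
    · intro d hd; rw [mem_range] at hd; rw [mem_Icc]; omega
    · intro d hd; rw [mem_Icc] at hd; omega
    · intro d hd; rw [mem_range] at hd; omega
    · intro d hd; rfl
  calc _ = ∑ p ∈ D, (T - (p.2 - p.1)) := rfl
    _ ≤ _ := h1 ▸ h2
    _ = _ := h4

/-- Erdős–Turán inequality. -/
lemma erdos_turan {S : Finset ℕ} (hS : IsSidon S) {N : ℕ} (hN : S ⊆ Icc 1 N) (T : ℕ) :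
    T * S.card ^ 2 ≤ (N + T) * (S.card + T) := by
  classical
  rcases Nat.eq_zero_or_pos T with hT | hT
  · subst hT; simp
  let A : ℕ → ℕ := fun w => (S.filter fun x => x ≤ w ∧ w < x + T).card
  have h1 : ∑ w ∈ range (N + T), A w = T * S.card := by
    simp only [A, card_filter]
    rw [sum_comm]
    have : ∀ x ∈ S, (∑ w ∈ range (N + T), if x ≤ w ∧ w < x + T then 1 else 0) = T := by
      intro x hx
      have hx' := mem_Icc.mp (hN hx)
      rw [← card_filter]
      have : (range (N + T)).filter (fun w => x ≤ w ∧ w < x + T) = Ico x (x + T) := by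
        ext w
        rw [mem_filter, mem_range, mem_Ico]
        omega
      rw [this, Nat.card_Ico]
      omega
    rw [sum_congr rfl this, sum_const, smul_eq_mul, mul_comm]
  have h2 : ∑ w ∈ range (N + T), A w ^ 2 ≤ T * S.card + 2 * ∑ d ∈ range T, d := by
    have e1 : ∀ w, A w ^ 2 = ∑ p ∈ S ×ˢ S, if (p.1 ≤ w ∧ w < p.1 + T) ∧ (p.2 ≤ w ∧ w < p.2 + T)
        then 1 else 0 := by
      intro w
      simp only [A]
      rw [sq, ← card_product, ← card_filter]
      congr 1
      ext p
      simp only [mem_product, mem_filter]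
      tauto
    simp_rw [e1]
    rw [sum_comm]
    have e2 : ∀ p ∈ S ×ˢ S, (∑ w ∈ range (N + T),
        if (p.1 ≤ w ∧ w < p.1 + T) ∧ (p.2 ≤ w ∧ w < p.2 + T) then 1 else 0) =
        T - (max p.1 p.2 - min p.1 p.2) := by
      intro p hp
      rw [mem_product] at hp
      have hx1 := mem_Icc.mp (hN hp.1)
      have hx2 := mem_Icc.mp (hN hp.2)
      rw [← card_filter]
      have : (range (N + T)).filter (fun w => (p.1 ≤ w ∧ w < p.1 + T) ∧ (p.2 ≤ w ∧ w < p.2 + T)) =
          Ico (max p.1 p.2) (min p.1 p.2 + T) := by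
        ext w
        rw [mem_filter, mem_range, mem_Ico, max_le_iff, ← min_add_add_right, lt_min_iff]
        omega
      rw [this, Nat.card_Ico]
      omega
    rw [sum_congr rfl e2]
    rw [← sum_filter_add_sum_filter_not (S ×ˢ S) (fun p => p.1 < p.2)]
    rw [← sum_filter_add_sum_filter_not ((S ×ˢ S).filter fun p => ¬ p.1 < p.2) (fun p => p.1 = p.2)]
    have e3 : ∑ p ∈ (S ×ˢ S).filter (fun p => p.1 < p.2), (T - (max p.1 p.2 - min p.1 p.2)) =
        ∑ p ∈ (S ×ˢ S).filter (fun p => p.1 < p.2), (T - (p.2 - p.1)) := by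
      refine sum_congr rfl fun p hp => ?_
      rw [mem_filter] at hp
      rw [max_eq_right hp.2.le, min_eq_left hp.2.le]
    have e4 : ∑ p ∈ ((S ×ˢ S).filter fun p => ¬ p.1 < p.2).filter (fun p => p.1 = p.2),
        (T - (max p.1 p.2 - min p.1 p.2)) ≤ T * S.card := by
      calc _ ≤ ∑ p ∈ ((S ×ˢ S).filter fun p => ¬ p.1 < p.2).filter (fun p => p.1 = p.2), T :=
            sum_le_sum fun p _ => Nat.sub_le _ _
        _ = T * (((S ×ˢ S).filter fun p => ¬ p.1 < p.2).filter (fun p => p.1 = p.2)).card := by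
            rw [sum_const, smul_eq_mul, mul_comm]
        _ ≤ T * S.card := by
            apply Nat.mul_le_mul_left
            apply card_le_card_of_injOn (fun p => p.1)
            · intro p hp
              simp only [coe_filter, mem_filter, mem_product, Set.mem_ofPred_eq] at hp
              exact hp.1.1.1
            · intro p hp q hq h
              simp only [coe_filter, mem_filter, mem_product, Set.mem_ofPred_eq] at hp hq
              have h' : p.1 = q.1 := h
              exact Prod.ext h' (by rw [← hp.2, ← hq.2]; exact h')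
    have e5 : ∑ p ∈ ((S ×ˢ S).filter fun p => ¬ p.1 < p.2).filter (fun p => ¬ p.1 = p.2),
        (T - (max p.1 p.2 - min p.1 p.2)) =
        ∑ p ∈ (S ×ˢ S).filter (fun p => p.1 < p.2), (T - (p.2 - p.1)) := by
      refine sum_nbij' Prod.swap Prod.swap ?_ ?_ ?_ ?_ ?_
      · intro p hp
        simp only [mem_filter, mem_product, Prod.fst_swap, Prod.snd_swap] at hp ⊢
        exact ⟨⟨hp.1.1.2, hp.1.1.1⟩, by omega⟩
      · intro p hp
        simp only [mem_filter, mem_product, Prod.fst_swap, Prod.snd_swap] at hp ⊢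
        exact ⟨⟨⟨hp.1.2, hp.1.1⟩, by omega⟩, by omega⟩
      · intro p _; simp
      · intro p _; simp
      · intro p hp
        simp only [mem_filter, mem_product, Prod.fst_swap, Prod.snd_swap] at hp ⊢
        rw [max_eq_left (by omega), min_eq_right (by omega)]
    have e6 := sum_diff_le hS T
    rw [e3, e5]
    omega
  have h3 := sq_sum_le_card_mul_sum_sq (s := range (N + T)) (f := A)
  rw [h1, card_range] at h3
  have h4 : 2 * ∑ d ∈ range T, d ≤ T * T := by
    rw [mul_comm, Finset.sum_range_id_mul_two]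
    exact Nat.mul_le_mul_left _ (Nat.sub_le _ _)
  have h5 : (T * S.card) ^ 2 ≤ (N + T) * (T * S.card + T * T) :=
    h3.trans (Nat.mul_le_mul_left _ (h2.trans (by omega)))
  have h6 : T * (T * S.card ^ 2) ≤ T * ((N + T) * (S.card + T)) := by
    calc T * (T * S.card ^ 2) = (T * S.card) ^ 2 := by ring
      _ ≤ _ := h5
      _ = _ := by ring
  exact Nat.le_of_mul_le_mul_left h6 hT

end Pool.Agent.Hhelper78.Cyc
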