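import Pool.Agent.Hhelper78.Cyc.Edges
import Pool.Agent.Hhelper78.Cyc.SidonBound

/-!
# Numerical consequences
-/

namespace Pool.Agent.Hhelper78.Cyc

open Finset

/-- crude bound -/
lemma sidon_crude {S : Finset ℕ} (hS : IsSidon S) {N : ℕ} (hN : S ⊆ Icc 1 N) (h1 : 1 ≤ N) :
    S.card ^ 2 ≤ 2 * S.card + 2 * N := by
  have h := erdos_turan hS hN N
  have : N * S.card ^ 2 ≤ N * (2 * S.card + 2 * N) := by
    calc _ ≤ _ := h
      _ = _ := by ring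
  exact Nat.le_of_mul_le_mul_left this h1

lemma sidon_le {S : Finset ℕ} (hS : IsSidon S) {N : ℕ} (hN : S ⊆ Icc 1 N) (h1 : 1 ≤ N)
    {q : ℝ} (hq : 1 ≤ q) (hqN : (N : ℝ) = q ^ 4) : (S.card : ℝ) ≤ q ^ 2 + 4 * q := by
  have hc := sidon_crude hS hN h1
  have hc' : (S.card : ℝ) ^ 2 ≤ 2 * S.card + 2 * q ^ 4 := by
    rw [← hqN]; exact_mod_cast hc
  set k : ℝ := (S.card : ℝ) with hk
  have hk0 : 0 ≤ k := by positivity
  have h3 : k ≤ 3 * q ^ 2 := by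
    by_contra hcon
    push Not at hcon
    have hq2 : 1 ≤ q ^ 2 := one_le_pow₀ hq
    nlinarith [mul_pos (sub_pos.mpr hcon) (show 0 < q ^ 2 by positivity)]
  obtain ⟨T, hT1, hT2⟩ : ∃ T : ℕ, q ^ 3 ≤ T ∧ (T : ℝ) ≤ 2 * q ^ 3 := by
    refine ⟨⌈q ^ 3⌉₊, Nat.le_ceil _, ?_⟩
    have := Nat.ceil_lt_add_one (show 0 ≤ q ^ 3 by positivity)
    have : 1 ≤ q ^ 3 := one_le_pow₀ hq
    linarith
  have h := erdos_turan hS hN T
  have h' : (T : ℝ) * k ^ 2 ≤ (q ^ 4 + T) * (k + T) := by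
    rw [← hqN, hk]; exact_mod_cast h
  have hq3 : 0 < q ^ 3 := by positivity
  have hTpos : (0 : ℝ) < T := lt_of_lt_of_le hq3 hT1
  -- T k^2 ≤ q^4 k + q^4 T + T k + T^2
  have h4 : q ^ 4 * k ≤ T * (3 * q ^ 3) := by
    calc q ^ 4 * k ≤ q ^ 4 * (3 * q ^ 2) := by gcongr
      _ = q ^ 3 * (3 * q ^ 3) := by ring
      _ ≤ _ := by gcongr
  have h5 : (T : ℝ) * k ^ 2 ≤ T * (3 * q ^ 3 + q ^ 4 + 3 * q ^ 2 + 2 * q ^ 3) := by
    have e1 : (T : ℝ) * k ≤ T * (3 * q ^ 2) := by gcongr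
    have e2 : (T : ℝ) * T ≤ T * (2 * q ^ 3) := by gcongr
    nlinarith
  have h6 : k ^ 2 ≤ 3 * q ^ 3 + q ^ 4 + 3 * q ^ 2 + 2 * q ^ 3 := le_of_mul_le_mul_left h5 hTpos
  have h7 : k ^ 2 ≤ (q ^ 2 + 4 * q) ^ 2 := by
    have e3 : q ^ 2 ≤ q ^ 3 := pow_le_pow_right₀ hq (by norm_num)
    nlinarith
  exact (abs_le_of_sq_le_sq' h7 (by positivity)).2

/-- Main numeric consequence -/
theorem chords_le {n : ℕ} {V : Type*} [Fintype V] [DecidableEq V] {G : SimpleGraph V}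
    (hD : DistinctCycleLengths G) (hcard : Fintype.card V = n) (L : Lab G n)
    {q : ℝ} (hq : 1 ≤ q) (hqn : (n : ℝ) = q ^ 4)
    (hm : q ^ 2 / 2 ≤ ((chords G L.ham).card : ℝ)) :
    ∃ S : Finset ℕ, S ⊆ Icc 1 n ∧ IsSidon S ∧ ((chords G L.ham).card : ℝ) ≤ S.card + 84 * q := by
  have hq2 : 1 ≤ q ^ 2 := one_le_pow₀ hq
  have hpos : 0 < (chords G L.ham).card := by
    have : (0 : ℝ) < ((chords G L.ham).card : ℝ) := by linarith
    exact_mod_cast this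
  obtain ⟨S, c, d, r₁, r₂, hS1, hS2, hle, hc, hd, hr1, hr2⟩ := main_comb hD hcard L hpos
  set m := (chords G L.ham).card with hmdef
  refine ⟨S, hS1.trans (Icc_subset_Icc le_rfl (Nat.sub_le _ _)), hS2, ?_⟩
  rcases Nat.lt_or_ge m 4 with h4 | h4
  · have : (m : ℝ) ≤ 4 := by exact_mod_cast h4.le
    have : (0 : ℝ) ≤ S.card := by positivity
    linarith
  have hm4 : (4 : ℝ) ≤ m := by exact_mod_cast h4
  have hc' : (c : ℝ) ≤ 8 * q ^ 2 := by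
    have e1 : (c : ℝ) * m ≤ 4 * q ^ 4 := by rw [← hqn]; exact_mod_cast hc
    have e2 : (c : ℝ) * (q ^ 2 / 2) ≤ 4 * q ^ 4 := le_trans (by gcongr) e1
    by_contra hcon
    push Not at hcon
    nlinarith
  have hd' : (d : ℝ) ≤ 64 := by
    have e1 : (d : ℝ) * ((m : ℝ) - 2) ≤ 2 * c := by
      have : (d : ℝ) * ((m - 2 : ℕ) : ℝ) ≤ 2 * c := by exact_mod_cast hd
      rwa [Nat.cast_sub (by omega)] at this
    have e2 : (d : ℝ) * (q ^ 2 / 4) ≤ d * ((m : ℝ) - 2) := by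
      gcongr
      linarith
    by_contra hcon
    push Not at hcon
    nlinarith
  have hr : ∀ r : ℕ, r * (r - 1) ≤ 2 * c → (r : ℝ) ≤ 1 + 4 * q := by
    intro r hr
    rcases Nat.eq_zero_or_pos r with h0 | h0
    · subst h0
      push_cast
      linarith
    have e1 : (r : ℝ) * ((r : ℝ) - 1) ≤ 2 * c := by
      have : (r : ℝ) * ((r - 1 : ℕ) : ℝ) ≤ 2 * c := by exact_mod_cast hr
      rwa [Nat.cast_sub h0, Nat.cast_one] at this
    have e2 : ((r : ℝ) - 1) ^ 2 ≤ (4 * q) ^ 2 := by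
      have : (1 : ℝ) ≤ r := by exact_mod_cast h0
      nlinarith
    have := (abs_le_of_sq_le_sq' e2 (by positivity)).2
    linarith
  have hr1' := hr r₁ hr1
  have hr2' := hr r₂ hr2
  have hle' : (m : ℝ) ≤ S.card + d + 2 * r₁ + 2 * r₂ := by exact_mod_cast hle
  linarith

/-- fourth root -/
lemma exists_root (n : ℕ) (hn : 1 ≤ n) : ∃ q : ℝ, 1 ≤ q ∧ (n : ℝ) = q ^ 4 ∧ √(n : ℝ) = q ^ 2 ∧
    (n : ℝ) ^ (1 / 4 : ℝ) = q := by
  refine ⟨(n : ℝ) ^ (1 / 4 : ℝ), ?_, ?_, ?_, rfl⟩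
  · exact Real.one_le_rpow (by exact_mod_cast hn) (by norm_num)
  · rw [← Real.rpow_natCast, ← Real.rpow_mul (by positivity)]
    norm_num
  · rw [← Real.rpow_natCast, ← Real.rpow_mul (by positivity), Real.sqrt_eq_rpow]
    norm_num

/-- **Upper bound.** -/
theorem h_le (n : ℕ) (hn : 3 ≤ n) : (h n : ℝ) ≤ n + √(n : ℝ) + 88 * (n : ℝ) ^ (1 / 4 : ℝ) := by
  obtain ⟨G, hH, hD, hG⟩ := exists_max hn
  obtain ⟨L⟩ := exists_lab hn hH
  obtain ⟨q, hq, hqn, hq2, hq1⟩ := exists_root n (by omega)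
  rw [hq2, hq1]
  have h1 : (h n : ℝ) ≤ n + (chords G L.ham).card := by
    rw [← hG]
    exact_mod_cast ncard_edges_le L
  rcases le_total ((chords G L.ham).card : ℝ) (q ^ 2) with h2 | h2
  · linarith
  obtain ⟨S, hS1, hS2, hS3⟩ := chords_le hD (Fintype.card_fin n) L hq hqn
    (by nlinarith [sq_nonneg q])
  have := sidon_le hS2 hS1 (by omega) hq hqn
  linarith

/-- **Comparison with Sidon sets**, assuming `h n` is not too small. -/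
theorem h_le_sidon (n : ℕ) (hn : 3 ≤ n) (hlow : (n : ℝ) + √(n : ℝ) / 2 ≤ h n) :
    ∃ S : Finset ℕ, S ⊆ Icc 1 n ∧ IsSidon S ∧
      (h n : ℝ) ≤ n + S.card + 84 * (n : ℝ) ^ (1 / 4 : ℝ) := by
  obtain ⟨G, hH, hD, hG⟩ := exists_max hn
  obtain ⟨L⟩ := exists_lab hn hH
  obtain ⟨q, hq, hqn, hq2, hq1⟩ := exists_root n (by omega)
  rw [hq2] at hlow
  rw [hq1]
  have h1 : (h n : ℝ) ≤ n + (chords G L.ham).card := by
    rw [← hG]
    exact_mod_cast ncard_edges_le L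
  obtain ⟨S, hS1, hS2, hS3⟩ := chords_le hD (Fintype.card_fin n) L hq hqn (by linarith)
  exact ⟨S, hS1, hS2, by linarith⟩

end Pool.Agent.Hhelper78.Cyc
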