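import Pool.Agent.Hhelper78.Cyc.Struct

/-!
# A parallel family of chords gives a Sidon set
-/

namespace Pool.Agent.Hhelper78.Cyc

open SimpleGraph

variable {V : Type*} [Fintype V] [DecidableEq V] {G : SimpleGraph V} {n : ℕ}

namespace Lab

variable {L : Lab G n} {l : ℕ}

/-- A family of chords represented by pairwise nested intervals gives a Sidon set of widths. -/
lemma sidon_of_nested (hD : DistinctCycleLengths G) (P : Finset (Sym2 V))
    (hP : P ⊆ chords G L.ham) (X Y : Sym2 V → ℕ)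
    (hrep : ∀ f ∈ P, f = s(L.v (X f), L.v (Y f)) ∧ X f < Y f ∧ Y f < X f + n)
    (hnest : ∀ f ∈ P, ∀ g ∈ P, (X f ≤ X g ∧ Y g ≤ Y f) ∨ (X g ≤ X f ∧ Y f ≤ Y g)) :
    ∃ S : Finset ℕ, S ⊆ Finset.Icc 1 (n - 1) ∧ IsSidon S ∧ S.card = P.card := by
  classical
  let W : Sym2 V → ℕ := fun f => Y f - X f
  have hinj : ∀ f ∈ P, ∀ g ∈ P, W f = W g → f = g := by
    intro f hf g hg h
    obtain ⟨a1, a2, a3⟩ := hrep f hf
    obtain ⟨b1, b2, b3⟩ := hrep g hg
    have h' : Y f - X f = Y g - X g := h
    have hX : X f = X g := by rcases hnest f hf g hg with h | h <;> omega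
    have hY : Y f = Y g := by omega
    rw [a1, b1, hX, hY]
  -- cycles
  have hcyc : ∀ f ∈ P, ∀ g ∈ P, f ≠ g → W g ≤ W f →
      HasCyc G L.ham (({f, g} : Finset (Sym2 V)) : Set (Sym2 V)) (W f - W g + 2) := by
    intro f hf g hg hne hle
    obtain ⟨a1, a2, a3⟩ := hrep f hf
    obtain ⟨b1, b2, b3⟩ := hrep g hg
    have hle' : Y g - X g ≤ Y f - X f := hle
    have hn : X f ≤ X g ∧ Y g ≤ Y f := by
      rcases hnest f hf g hg with h | h
      · exact h
      · omega
    have hfG : G.Adj (L.v (X f)) (L.v (Y f)) := by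
      have := (mem_chords.mp (hP hf)).1
      rw [a1, mem_edgeSet] at this; exact this
    have hgG : G.Adj (L.v (X g)) (L.v (Y g)) := by
      have := (mem_chords.mp (hP hg)).1
      rw [b1, mem_edgeSet] at this; exact this
    have hfh : s(L.v (X f), L.v (Y f)) ∉ L.ham := by
      rw [← a1]; exact (mem_chords.mp (hP hf)).2
    have hfg : s(L.v (X f), L.v (Y f)) ≠ s(L.v (X g), L.v (Y g)) := by
      rw [← a1, ← b1]; exact hne
    have := L.shapeN hn.1 b2 hn.2 a3 hfG hgG hfh hfg
    rw [← a1, ← b1] at this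
    exact this.of_eq (by simp)
  refine ⟨P.image W, ?_, ?_, ?_⟩
  · intro w hw
    rw [Finset.mem_image] at hw
    obtain ⟨f, hf, rfl⟩ := hw
    obtain ⟨a1, a2, a3⟩ := hrep f hf
    rw [Finset.mem_Icc]
    change 1 ≤ Y f - X f ∧ Y f - X f ≤ n - 1
    omega
  · -- two differences agree
    have key : ∀ f ∈ P, ∀ g ∈ P, ∀ p ∈ P, ∀ q ∈ P, W g < W f → W q < W p →
        W f - W g = W p - W q → f = p ∧ g = q := by
      intro f hf g hg p hp q hq h1 h2 h3
      have hfg : f ≠ g := by rintro rfl; exact lt_irrefl _ h1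
      have hpq : p ≠ q := by rintro rfl; exact lt_irrefl _ h2
      have c1 := hcyc f hf g hg hfg h1.le
      have c2 := hcyc p hp q hq hpq h2.le
      rw [h3] at c1
      have hE := hasCyc_unique hD (K := {f, g}) (K' := {p, q}) (by
        intro x hx
        simp only [Finset.mem_insert, Finset.mem_singleton] at hx
        rcases hx with rfl | rfl
        · exact hP hf
        · exact hP hg) (by
        intro x hx
        simp only [Finset.mem_insert, Finset.mem_singleton] at hx
        rcases hx with rfl | rfl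
        · exact hP hp
        · exact hP hq) c1 c2
      have m1 : f ∈ ({p, q} : Finset (Sym2 V)) := by rw [← hE]; simp
      have m2 : g ∈ ({p, q} : Finset (Sym2 V)) := by rw [← hE]; simp
      simp only [Finset.mem_insert, Finset.mem_singleton] at m1 m2
      rcases m1 with rfl | rfl <;> rcases m2 with rfl | rfl
      · exact absurd rfl hfg
      · exact ⟨rfl, rfl⟩
      · omega
      · exact absurd rfl hfg
    intro a ha b hb c hc d hd habcd
    rw [Finset.mem_image] at ha hb hc hd
    obtain ⟨f, hf, rfl⟩ := ha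
    obtain ⟨g, hg, rfl⟩ := hb
    obtain ⟨p, hp, rfl⟩ := hc
    obtain ⟨q, hq, rfl⟩ := hd
    rcases lt_trichotomy (W f) (W p) with h | h | h
    · -- W p - W f = W g - W q
      obtain ⟨e1, e2⟩ := key p hp f hf g hg q hq h (by omega) (by omega)
      subst e1; subst e2
      exact Or.inr ⟨rfl, rfl⟩
    · exact Or.inl ⟨h, by omega⟩
    · obtain ⟨e1, e2⟩ := key f hf p hp q hq g hg h (by omega) (by omega)
      subst e1; subst e2
      exact Or.inr ⟨rfl, rfl⟩
  · exact Finset.card_image_of_injOn (fun f hf g hg h => hinj f hf g hg h)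

/-- The central chord with the nested chords on both sides. -/
lemma sidon_of_sides (hD : DistinctCycleLengths G) (B : L.Base l) (RL RR : Finset (Sym2 V))
    (hL : RL ⊆ L.leftC l) (hR : RR ⊆ L.mir.leftC (n - l))
    (hbL : ∀ f ∈ RL, ∀ g ∈ RL, ¬ L.Bad l f g)
    (hbR : ∀ f ∈ RR, ∀ g ∈ RR, ¬ L.mir.Bad (n - l) f g) :
    ∃ S : Finset ℕ, S ⊆ Finset.Icc 1 (n - 1) ∧ IsSidon S ∧
      S.card = (insert (L.e l) (RL ∪ RR)).card := by
  classical
  have h0 := B.pos
  have h1 := B.lt
  let X : Sym2 V → ℕ := fun f => if f = L.e l then n else if f ∈ RL then n + L.lx l f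
    else n - L.mir.lx (n - l) f
  let Y : Sym2 V → ℕ := fun f => if f = L.e l then n + l else if f ∈ RL then n + L.ly l f
    else 2 * n - L.mir.ly (n - l) f
  have hsub : insert (L.e l) (RL ∪ RR) ⊆ chords G L.ham := by
    intro f hf
    rw [Finset.mem_insert, Finset.mem_union] at hf
    rcases hf with rfl | hf | hf
    · exact e_mem B
    · exact (mem_leftC.mp (hL hf)).1
    · have := (mem_leftC.mp (hR hf)).1
      rwa [L.mir_ham] at this
  -- description of the three kinds
  have hX : ∀ f ∈ insert (L.e l) (RL ∪ RR),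
      (f = L.e l ∧ X f = n ∧ Y f = n + l) ∨
      (f ∈ RL ∧ X f = n + L.lx l f ∧ Y f = n + L.ly l f) ∨
      (f ∈ RR ∧ X f = n - L.mir.lx (n - l) f ∧ Y f = 2 * n - L.mir.ly (n - l) f) := by
    intro f hf
    by_cases hfe : f = L.e l
    · left
      refine ⟨hfe, ?_, ?_⟩
      · simp only [X]; rw [if_pos hfe]
      · simp only [Y]; rw [if_pos hfe]
    · by_cases hfL : f ∈ RL
      · right; left
        refine ⟨hfL, ?_, ?_⟩
        · simp only [X]; rw [if_neg hfe, if_pos hfL]
        · simp only [Y]; rw [if_neg hfe, if_pos hfL]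
      · right; right
        rw [Finset.mem_insert, Finset.mem_union] at hf
        refine ⟨(hf.resolve_left hfe).resolve_left hfL, ?_, ?_⟩
        · simp only [X]; rw [if_neg hfe, if_neg hfL]
        · simp only [Y]; rw [if_neg hfe, if_neg hfL]
  refine sidon_of_nested (L := L) hD _ hsub X Y ?_ ?_
  · intro f hf
    rcases hX f hf with ⟨h, hx, hy⟩ | ⟨h, hx, hy⟩ | ⟨h, hx, hy⟩
    · rw [hx, hy]
      refine ⟨?_, by omega, by omega⟩
      rw [L.v_add', L.v_n, h]
      rfl
    · obtain ⟨a1, a2, a3⟩ := (mem_leftC.mp (hL h)).2.1.spec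
      rw [hx, hy]
      refine ⟨?_, by omega, by omega⟩
      rw [L.v_add', L.v_add']
      exact a3
    · obtain ⟨a1, a2, a3⟩ := (mem_leftC.mp (hR h)).2.1.spec
      rw [hx, hy]
      refine ⟨?_, by omega, by omega⟩
      rw [L.mir_v (by omega), L.mir_v (by omega)] at a3
      have : 2 * n - L.mir.ly (n - l) f = n + (n - L.mir.ly (n - l) f) := by omega
      rw [this, L.v_add']
      exact a3
  · intro f hf g hg
    rcases hX f hf with ⟨h, hx, hy⟩ | ⟨h, hx, hy⟩ | ⟨h, hx, hy⟩ <;>
      rcases hX g hg with ⟨h', hx', hy'⟩ | ⟨h', hx', hy'⟩ | ⟨h', hx', hy'⟩ <;>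
      rw [hx, hy, hx', hy']
    · omega
    · obtain ⟨a1, a2, -⟩ := (mem_leftC.mp (hL h')).2.1.spec
      omega
    · obtain ⟨a1, a2, -⟩ := (mem_leftC.mp (hR h')).2.1.spec
      omega
    · obtain ⟨a1, a2, -⟩ := (mem_leftC.mp (hL h)).2.1.spec
      omega
    · have b1 := hbL f h g h'
      have b2 := hbL g h' f h
      unfold Bad at b1 b2
      omega
    · obtain ⟨a1, a2, -⟩ := (mem_leftC.mp (hL h)).2.1.spec
      obtain ⟨b1, b2, -⟩ := (mem_leftC.mp (hR h')).2.1.spec
      omega
    · obtain ⟨a1, a2, -⟩ := (mem_leftC.mp (hR h)).2.1.spec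
      omega
    · obtain ⟨a1, a2, -⟩ := (mem_leftC.mp (hR h)).2.1.spec
      obtain ⟨b1, b2, -⟩ := (mem_leftC.mp (hL h')).2.1.spec
      omega
    · obtain ⟨a1, a2, -⟩ := (mem_leftC.mp (hR h)).2.1.spec
      obtain ⟨a1', a2', -⟩ := (mem_leftC.mp (hR h')).2.1.spec
      have b1 := hbR f h g h'
      have b2 := hbR g h' f h
      unfold Bad at b1 b2
      omega

end Lab

/-- every chord can be taken as the base -/
lemma exists_base (L : Lab G n) {e : Sym2 V} (he : e ∈ chords G L.ham) :
    ∃ (L' : Lab G n) (l : ℕ), L'.ham = L.ham ∧ L'.Base l ∧ L'.e l = e := by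
  rw [mem_chords] at he
  obtain ⟨he1, he2⟩ := he
  induction e using Sym2.ind with
  | _ a b =>
    rw [mem_edgeSet] at he1
    obtain ⟨i, hi, rfl⟩ := L.exists_lt a
    obtain ⟨j, hj, rfl⟩ := L.exists_lt b
    have hne : i ≠ j := fun h => by subst h; exact G.loopless.irrefl _ he1
    have aux : ∀ i j : ℕ, i < j → j < n → G.Adj (L.v i) (L.v j) → s(L.v i, L.v j) ∉ L.ham →
        ∃ (L' : Lab G n) (l : ℕ), L'.ham = L.ham ∧ L'.Base l ∧ L'.e l = s(L.v i, L.v j) := by
      intro i j hij hj hadj hh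
      have e0 : (L.rot i).v 0 = L.v i := by
        change L.v (0 + i) = _; rw [zero_add]
      have e1 : (L.rot i).v (j - i) = L.v j := by
        change L.v (j - i + i) = _; rw [Nat.sub_add_cancel hij.le]
      refine ⟨L.rot i, j - i, L.rot_ham i, ⟨by omega, by omega, ?_, ?_⟩, ?_⟩
      · rw [e0, e1]; exact hadj
      · rw [e0, e1, L.rot_ham]; exact hh
      · unfold Lab.e
        rw [e0, e1]
    rcases lt_or_gt_of_ne hne with h | h
    · exact aux i j h hj he1 he2
    · rw [Sym2.eq_swap]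
      exact aux j i h hi he1.symm (by rwa [Sym2.eq_swap])

/-- **Combinatorial main theorem.** -/
theorem main_comb (hD : DistinctCycleLengths G) (hcard : Fintype.card V = n) (L : Lab G n)
    (hm : 0 < (chords G L.ham).card) :
    ∃ (S : Finset ℕ) (c d r₁ r₂ : ℕ), S ⊆ Finset.Icc 1 (n - 1) ∧ IsSidon S ∧
      (chords G L.ham).card ≤ S.card + d + 2 * r₁ + 2 * r₂ ∧
      c * (chords G L.ham).card ≤ 4 * n ∧
      d * ((chords G L.ham).card - 2) ≤ 2 * c ∧
      r₁ * (r₁ - 1) ≤ 2 * c ∧ r₂ * (r₂ - 1) ≤ 2 * c := by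
  classical
  obtain ⟨e, he, hce⟩ := exists_good hD hcard L.ham hm
  obtain ⟨L', l, hham, B, rfl⟩ := exists_base L he
  rw [← hham] at *
  clear hham
  obtain ⟨ML, RL, a1, a2, -, a4, a5⟩ := Lab.left_side B
  obtain ⟨MR, RR, b1, b2, -, b4, b5⟩ := Lab.left_side B.mir
  rw [Lab.mir_e B.lt.le, L'.mir_ham] at b1
  have c1 := Lab.cross_side B
  obtain ⟨S, hS1, hS2, hS3⟩ := Lab.sidon_of_sides hD B RL RR a2 b2 a5 b5
  refine ⟨S, (famE G L'.ham (L'.e l)).card, (L'.crossC l).card, ML.card, MR.card, hS1, hS2, ?_,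
    hce, c1, a1, b1⟩
  -- counting chords
  have hcov : chords G L'.ham ⊆ (insert (L'.e l) (RL ∪ RR)) ∪ (L'.crossC l ∪
      ((ML.image Prod.fst ∪ ML.image Prod.snd) ∪ (MR.image Prod.fst ∪ MR.image Prod.snd))) := by
    intro f hf
    by_cases hfe : f = L'.e l
    · exact Finset.mem_union_left _ (Finset.mem_insert.mpr (Or.inl hfe))
    · rcases Lab.classify (L := L') (l := l) (mem_chords.mp hf).1 with h | h | h
      · rcases a4 f (Lab.mem_leftC.mpr ⟨hf, h, hfe⟩) with h' | ⟨p, hp, h' | h'⟩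
        · exact Finset.mem_union_left _ (Finset.mem_insert_of_mem (Finset.mem_union_left _ h'))
        · refine Finset.mem_union_right _ (Finset.mem_union_right _ (Finset.mem_union_left _
            (Finset.mem_union_left _ (Finset.mem_image.mpr ⟨p, hp, h'.symm⟩))))
        · refine Finset.mem_union_right _ (Finset.mem_union_right _ (Finset.mem_union_left _
            (Finset.mem_union_right _ (Finset.mem_image.mpr ⟨p, hp, h'.symm⟩))))
      · rcases b4 f (Lab.mem_leftC.mpr ⟨by rwa [L'.mir_ham], h.mir, by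
          rwa [Lab.mir_e B.lt.le]⟩) with h' | ⟨p, hp, h' | h'⟩
        · exact Finset.mem_union_left _ (Finset.mem_insert_of_mem (Finset.mem_union_right _ h'))
        · refine Finset.mem_union_right _ (Finset.mem_union_right _ (Finset.mem_union_right _
            (Finset.mem_union_left _ (Finset.mem_image.mpr ⟨p, hp, h'.symm⟩))))
        · refine Finset.mem_union_right _ (Finset.mem_union_right _ (Finset.mem_union_right _
            (Finset.mem_union_right _ (Finset.mem_image.mpr ⟨p, hp, h'.symm⟩))))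
      · exact Finset.mem_union_right _ (Finset.mem_union_left _ (Lab.mem_crossC.mpr ⟨hf, h, hfe⟩))
  have h1 := Finset.card_le_card hcov
  have h2 := Finset.card_union_le (insert (L'.e l) (RL ∪ RR)) (L'.crossC l ∪
      ((ML.image Prod.fst ∪ ML.image Prod.snd) ∪ (MR.image Prod.fst ∪ MR.image Prod.snd)))
  have h3 := Finset.card_union_le (L'.crossC l)
      ((ML.image Prod.fst ∪ ML.image Prod.snd) ∪ (MR.image Prod.fst ∪ MR.image Prod.snd))
  have h4 := Finset.card_union_le (ML.image Prod.fst ∪ ML.image Prod.snd)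
    (MR.image Prod.fst ∪ MR.image Prod.snd)
  have h5 := Finset.card_union_le (ML.image Prod.fst) (ML.image Prod.snd)
  have h6 := Finset.card_union_le (MR.image Prod.fst) (MR.image Prod.snd)
  have h7 : (ML.image Prod.fst).card ≤ ML.card := Finset.card_image_le
  have h8 : (ML.image Prod.snd).card ≤ ML.card := Finset.card_image_le
  have h9 : (MR.image Prod.fst).card ≤ MR.card := Finset.card_image_le
  have h10 : (MR.image Prod.snd).card ≤ MR.card := Finset.card_image_le
  omega

end Pool.Agent.Hhelper78.Cyc
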