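import Pool.Agent.Hhelper78.Cyc.Defs

/-!
# Singer difference sets
-/

namespace Pool.Agent.Hhelper78.Cyc

open Finset

/-- Singer: for a prime `q` there is a perfect difference set modulo `q^2 + q + 1`. -/
theorem exists_singer (q : ℕ) (hq : q.Prime) : ∃ T : Finset (ZMod (q ^ 2 + q + 1)),
    T.card = q + 1 ∧
    (∀ a ∈ T, ∀ b ∈ T, ∀ c ∈ T, ∀ d ∈ T, a + b = c + d → (a = c ∧ b = d) ∨ (a = d ∧ b = c)) ∧
    (∀ d, d ≠ 0 → ∃ s ∈ T, ∃ t ∈ T, s - t = d) := by
  classical
  have : Fact q.Prime := ⟨hq⟩
  have : NeZero (q ^ 2 + q + 1) := ⟨by omega⟩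
  set M := q ^ 2 + q + 1 with hM
  let F := ZMod q
  let K := GaloisField q 3
  have hfin : Module.finrank F K = 3 := GaloisField.finrank q (by norm_num)
  have hcardK : Nat.card K = q ^ 3 := GaloisField.card q 3 (by norm_num)
  have hq2 := hq.two_le
  have : Finite K := Nat.finite_of_card_ne_zero (by rw [hcardK]; positivity)
  have hNM : (q - 1) * M = q ^ 3 - 1 := by
    obtain ⟨m, rfl⟩ : ∃ m, q = m + 1 := ⟨q - 1, by omega⟩
    rw [hM, Nat.add_sub_cancel]
    have : (m + 1) ^ 3 = m * ((m + 1) ^ 2 + (m + 1) + 1) + 1 := by ring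
    rw [this, Nat.add_sub_cancel]
  have hcardU : Nat.card Kˣ = (q - 1) * M := by
    rw [Nat.card_units, hcardK, hNM]
  have hcyc : IsCyclic Kˣ := inferInstance
  let e := zmodCyclicMulEquiv hcyc
  have hdvd : M ∣ Nat.card Kˣ := by rw [hcardU]; exact Dvd.intro_left _ rfl
  let f : Kˣ → ZMod M := fun u => ZMod.castHom hdvd (ZMod M) (Multiplicative.toAdd (e.symm u))
  have hfmul : ∀ u v, f (u * v) = f u + f v := by
    intro u v
    simp only [f, map_mul, toAdd_mul, map_add]
  have hfsurj : ∀ d, ∃ u, f u = d := by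
    intro d
    obtain ⟨x, hx⟩ := ZMod.castHom_surjective hdvd d
    refine ⟨e (Multiplicative.ofAdd x), ?_⟩
    simp only [f, MulEquiv.symm_apply_apply, toAdd_ofAdd]
    exact hx
  have hfF : ∀ (u : Kˣ) (c : F), (u : K) = algebraMap F K c → f u = 0 := by
    intro u c hc
    have hc0 : c ≠ 0 := by
      rintro rfl
      rw [map_zero] at hc
      exact u.ne_zero hc
    have h1 : u ^ (q - 1) = 1 := by
      apply Units.ext
      rw [Units.val_pow_eq_pow_val, hc, ← map_pow, ZMod.pow_card_sub_one_eq_one hc0, map_one,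
        Units.val_one]
    have h2 : (q - 1) • Multiplicative.toAdd (e.symm u) = 0 := by
      rw [← toAdd_pow, ← map_pow, h1, map_one, toAdd_one]
    obtain ⟨x, hx⟩ : ∃ x : ZMod (Nat.card Kˣ), x = Multiplicative.toAdd (e.symm u) := ⟨_, rfl⟩
    have : NeZero (Nat.card Kˣ) := ⟨Nat.card_pos.ne'⟩
    have h3 : ((x.val : ℕ) : ZMod (Nat.card Kˣ)) = x := ZMod.natCast_zmod_val x
    rw [← hx, ← h3, nsmul_eq_mul, ← Nat.cast_mul, ZMod.natCast_eq_zero_iff] at h2
    have h4 : M ∣ x.val := Nat.dvd_of_mul_dvd_mul_left (by omega)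
      ((dvd_of_eq hcardU.symm).trans h2)
    change ZMod.castHom hdvd (ZMod M) (Multiplicative.toAdd (e.symm u)) = 0
    rw [← hx, ← h3, map_natCast, ZMod.natCast_eq_zero_iff]
    exact h4
  -- an element outside the prime field
  obtain ⟨θ, hθ⟩ : ∃ θ : K, ∀ c : F, θ ≠ algebraMap F K c := by
    by_contra hcon
    push Not at hcon
    have hs : Function.Surjective (algebraMap F K) := fun x => by
      obtain ⟨c, hc⟩ := hcon x
      exact ⟨c, hc.symm⟩
    have h1 : Nat.card K ≤ Nat.card F := Nat.card_le_card_of_surjective _ hs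
    rw [hcardK, Nat.card_zmod] at h1
    have h2 : q ^ 1 < q ^ 3 := Nat.pow_lt_pow_right (by omega) (by norm_num)
    rw [pow_one] at h2
    exact absurd h1 (not_le.mpr h2)
  have hθa : ∀ a : F, θ + algebraMap F K a ≠ 0 := by
    intro a h
    apply hθ (-a)
    rw [map_neg]
    exact eq_neg_of_add_eq_zero_left h
  let U : F → Kˣ := fun a => Units.mk0 (θ + algebraMap F K a) (hθa a)
  let T : Finset (ZMod M) := insert 0 (univ.image fun a : F => f (U a))
  have hTcard : T.card ≤ q + 1 := by
    calc T.card ≤ (univ.image fun a : F => f (U a)).card + 1 := card_insert_le _ _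
      _ ≤ (univ : Finset F).card + 1 := by gcongr; exact card_image_le
      _ = q + 1 := by rw [card_univ, ZMod.card]
  have hW : ∀ (w : Kˣ) (x y : F), (w : K) = algebraMap F K x + algebraMap F K y * θ → f w ∈ T := by
    intro w x y hw
    by_cases hy : y = 0
    · subst hy
      rw [map_zero, zero_mul, add_zero] at hw
      rw [hfF w x hw]
      exact mem_insert_self _ _
    · have hy' : algebraMap F K y ≠ 0 := by
        rwa [Ne, map_eq_zero]
      have h1 : w = Units.mk0 (algebraMap F K y) hy' * U (x / y) := by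
        apply Units.ext
        rw [Units.val_mul, hw]
        simp only [U, Units.val_mk0]
        rw [map_div₀, mul_add, mul_div_cancel₀ _ hy']
        ring
      rw [h1, hfmul, hfF _ y rfl, zero_add]
      exact mem_insert_of_mem (mem_image_of_mem _ (mem_univ _))
  -- every nonzero residue is a difference
  have hdiff : ∀ d, ∃ s ∈ T, ∃ t ∈ T, s - t = d := by
    intro d
    obtain ⟨u, rfl⟩ := hfsurj d
    let φ : (Fin 4 → F) →ₗ[F] K :=
      { toFun := fun v => (algebraMap F K (v 0) + algebraMap F K (v 1) * θ) -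
          u * (algebraMap F K (v 2) + algebraMap F K (v 3) * θ)
        map_add' := by
          intro v w
          simp only [Pi.add_apply, map_add]
          ring
        map_smul' := by
          intro c v
          simp only [Pi.smul_apply, smul_eq_mul, map_mul, RingHom.id_apply, Algebra.smul_def]
          ring }
    have hker : LinearMap.ker φ ≠ ⊥ := by
      apply LinearMap.ker_ne_bot_of_finrank_lt
      rw [hfin]
      simp [F]
    obtain ⟨v, hv, hv0⟩ := (Submodule.ne_bot_iff _).mp hker
    rw [LinearMap.mem_ker] at hv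
    have hv' : algebraMap F K (v 0) + algebraMap F K (v 1) * θ =
        u * (algebraMap F K (v 2) + algebraMap F K (v 3) * θ) := sub_eq_zero.mp hv
    have hindep : ∀ x y : F, algebraMap F K x + algebraMap F K y * θ = 0 → x = 0 ∧ y = 0 := by
      intro x y h
      by_cases hy : y = 0
      · subst hy
        rw [map_zero, zero_mul, add_zero, map_eq_zero] at h
        exact ⟨h, rfl⟩
      · exfalso
        have hy' : algebraMap F K y ≠ 0 := by rwa [Ne, map_eq_zero]
        apply hθ (-x / y)
        rw [map_div₀, map_neg, eq_div_iff hy']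
        linear_combination h
    have hw' : algebraMap F K (v 2) + algebraMap F K (v 3) * θ ≠ 0 := by
      intro h
      rw [h, mul_zero] at hv'
      obtain ⟨a1, a2⟩ := hindep _ _ h
      obtain ⟨a3, a4⟩ := hindep _ _ hv'
      apply hv0
      funext i
      fin_cases i
      · exact a3
      · exact a4
      · exact a1
      · exact a2
    have hw : algebraMap F K (v 0) + algebraMap F K (v 1) * θ ≠ 0 := by
      rw [hv']
      exact mul_ne_zero u.ne_zero hw'
    refine ⟨f (Units.mk0 _ hw), hW _ (v 0) (v 1) rfl, f (Units.mk0 _ hw'), hW _ (v 2) (v 3) rfl, ?_⟩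
    have : Units.mk0 _ hw = u * Units.mk0 _ hw' := Units.ext hv'
    rw [this, hfmul]
    ring
  -- counting
  have hMcard : (univ.erase (0 : ZMod M)).card = (q + 1) * q := by
    rw [card_erase_of_mem (mem_univ _), card_univ, ZMod.card, hM]
    have : q ^ 2 + q + 1 - 1 = q ^ 2 + q := by omega
    rw [this]; ring
  have hmaps : Set.MapsTo (fun x : ZMod M × ZMod M => x.1 - x.2) (T.offDiag : Set (ZMod M × ZMod M))
      (univ.erase (0 : ZMod M) : Finset (ZMod M)) := by
    intro x hx
    rw [mem_coe, mem_offDiag] at hx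
    rw [mem_coe, mem_erase]
    exact ⟨sub_ne_zero.mpr hx.2.2, mem_univ _⟩
  have hsurj : Set.SurjOn (fun x : ZMod M × ZMod M => x.1 - x.2)
      (T.offDiag : Set (ZMod M × ZMod M)) (univ.erase (0 : ZMod M) : Finset (ZMod M)) := by
    intro d hd
    rw [mem_coe, mem_erase] at hd
    obtain ⟨s, hs, t, ht, hst⟩ := hdiff d
    refine ⟨(s, t), ?_, hst⟩
    rw [mem_coe, mem_offDiag]
    refine ⟨hs, ht, ?_⟩
    rintro h
    apply hd.1
    rw [← hst]
    exact sub_eq_zero.mpr h
  have hoff : T.offDiag.card = T.card * T.card - T.card := offDiag_card T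
  have hle : T.offDiag.card ≤ (univ.erase (0 : ZMod M)).card := by
    rw [hoff, hMcard, ← Nat.mul_sub_one]
    exact Nat.mul_le_mul hTcard (by omega)
  have hinj := injOn_of_surjOn_of_card_le _ hmaps hsurj hle
  have hge : (univ.erase (0 : ZMod M)).card ≤ T.offDiag.card := card_le_card_of_surjOn _ hsurj
  refine ⟨T, ?_, ?_, fun d _ => hdiff d⟩
  · rw [hoff, hMcard, ← Nat.mul_sub_one] at hge
    by_contra hne
    have h1 : T.card ≤ q := by omega
    have h2 : T.card * (T.card - 1) ≤ q * (q - 1) := Nat.mul_le_mul h1 (by omega)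
    have h3 : q * (q - 1) < (q + 1) * q := by
      obtain ⟨m, rfl⟩ : ∃ m, q = m + 1 := ⟨q - 1, by omega⟩
      rw [Nat.add_sub_cancel]
      nlinarith
    omega
  · intro a ha b hb c hc d hd h
    by_cases hac : a = c
    · left
      refine ⟨hac, ?_⟩
      rw [hac] at h
      exact add_left_cancel h
    · right
      have h1 : a - c = d - b := by linear_combination h
      have hdb : d ≠ b := by
        rintro rfl
        rw [sub_self] at h1
        exact hac (sub_eq_zero.mp h1)
      have h2 := hinj (show (a, c) ∈ (T.offDiag : Set (ZMod M × ZMod M)) by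
        rw [mem_coe, mem_offDiag]; exact ⟨ha, hc, hac⟩)
        (show (d, b) ∈ (T.offDiag : Set (ZMod M × ZMod M)) by
        rw [mem_coe, mem_offDiag]; exact ⟨hd, hb, hdb⟩) h1
      rw [Prod.mk.injEq] at h2
      exact ⟨h2.1, h2.2.symm⟩

end Pool.Agent.Hhelper78.Cyc
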