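import Pool.Agent.Hhelper78.Cyc.Numeric
import Pool.Agent.Hhelper78.Cyc.Singer

/-!
# Sidon sets in an interval containing both end points
-/

namespace Pool.Agent.Hhelper78.Cyc

open Finset

lemma exists_ruler {q L : ℕ} (hq : q.Prime) (hL0 : 0 < L) (hL : L < q ^ 2 + q + 1) :
    ∃ (R : Finset ℕ) (k : ℕ), R ⊆ range (L + 1) ∧ 0 ∈ R ∧ L ∈ R ∧ IsSidon R ∧
      q + 1 ≤ R.card + k ∧ k ^ 2 ≤ 2 * k + 2 * (q ^ 2 + q - L) := by
  classical
  have hex := exists_singer q hq
  obtain ⟨M, hM⟩ : ∃ M, M = q ^ 2 + q + 1 := ⟨_, rfl⟩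
  rw [← hM] at hex hL
  obtain ⟨T, hT1, hT2, hT3⟩ := hex
  have : NeZero M := ⟨by omega⟩
  have hLne : ((L : ℕ) : ZMod M) ≠ 0 := by
    intro h
    rw [ZMod.natCast_eq_zero_iff] at h
    exact absurd (Nat.le_of_dvd hL0 h) (by omega)
  obtain ⟨s, hs, t, ht, hst⟩ := hT3 (L : ZMod M) hLne
  let T' : Finset ℕ := T.image fun x => (x - t).val
  have hinj : Function.Injective (fun x : ZMod M => (x - t).val) := by
    intro x y hxy
    have := ZMod.val_injective M hxy
    simpa using this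
  have hcardT' : T'.card = q + 1 := by
    rw [← hT1]
    exact card_image_of_injective _ hinj
  have h0 : 0 ∈ T' := mem_image.mpr ⟨t, ht, by simp⟩
  have hLm : L ∈ T' := mem_image.mpr ⟨s, hs, by rw [hst, ZMod.val_natCast, Nat.mod_eq_of_lt hL]⟩
  have hlt : ∀ x ∈ T', x < M := by
    intro x hx
    obtain ⟨y, -, rfl⟩ := mem_image.mp hx
    exact ZMod.val_lt _
  have hsid : IsSidon T' := by
    intro a ha b hb c hc d hd h
    obtain ⟨a', ha', rfl⟩ := mem_image.mp ha
    obtain ⟨b', hb', rfl⟩ := mem_image.mp hb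
    obtain ⟨c', hc', rfl⟩ := mem_image.mp hc
    obtain ⟨d', hd', rfl⟩ := mem_image.mp hd
    have h' : (((a' - t).val + (b' - t).val : ℕ) : ZMod M) =
        (((c' - t).val + (d' - t).val : ℕ) : ZMod M) := congrArg _ h
    push_cast at h'
    rw [ZMod.natCast_zmod_val, ZMod.natCast_zmod_val, ZMod.natCast_zmod_val,
      ZMod.natCast_zmod_val] at h'
    have h2 : a' + b' = c' + d' := by
      linear_combination h'
    rcases hT2 a' ha' b' hb' c' hc' d' hd' h2 with ⟨e1, e2⟩ | ⟨e1, e2⟩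
    · left; rw [e1, e2]; exact ⟨rfl, rfl⟩
    · right; rw [e1, e2]; exact ⟨rfl, rfl⟩
  let K : Finset ℕ := (T'.filter fun x => ¬ x ≤ L).image fun x => x - L
  refine ⟨T'.filter fun x => x ≤ L, (T'.filter fun x => ¬ x ≤ L).card, ?_, ?_, ?_, ?_, ?_, ?_⟩
  · intro x hx
    rw [mem_filter] at hx
    rw [mem_range]
    omega
  · rw [mem_filter]; exact ⟨h0, Nat.zero_le _⟩
  · rw [mem_filter]; exact ⟨hLm, le_rfl⟩
  · intro a ha b hb c hc d hd h
    rw [mem_filter] at ha hb hc hd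
    exact hsid a ha.1 b hb.1 c hc.1 d hd.1 h
  · rw [card_filter_add_card_filter_not, hcardT']
  · have hK : K.card = (T'.filter fun x => ¬ x ≤ L).card := by
      apply card_image_of_injOn
      intro x hx y hy hxy
      simp only [coe_filter, Set.mem_ofPred_eq] at hx hy
      have hxy' : x - L = y - L := hxy
      omega
    rw [← hK]
    have hKs : IsSidon K := by
      intro a ha b hb c hc d hd h
      simp only [K, mem_image, mem_filter] at ha hb hc hd
      obtain ⟨a', ha', rfl⟩ := ha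
      obtain ⟨b', hb', rfl⟩ := hb
      obtain ⟨c', hc', rfl⟩ := hc
      obtain ⟨d', hd', rfl⟩ := hd
      rcases hsid a' ha'.1 b' hb'.1 c' hc'.1 d' hd'.1 (by omega) with ⟨e1, e2⟩ | ⟨e1, e2⟩
      · left; rw [e1, e2]; exact ⟨rfl, rfl⟩
      · right; rw [e1, e2]; exact ⟨rfl, rfl⟩
    have hKsub : K ⊆ Icc 1 (q ^ 2 + q - L) := by
      intro x hx
      simp only [K, mem_image, mem_filter] at hx
      obtain ⟨y, ⟨hy1, hy2⟩, rfl⟩ := hx
      have := hlt y hy1
      rw [mem_Icc]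
      omega
    rcases Nat.eq_zero_or_pos (q ^ 2 + q - L) with h | h
    · rw [h] at hKsub
      have : K = ∅ := by
        rw [eq_empty_iff_forall_notMem]
        intro x hx
        have := mem_Icc.mp (hKsub hx)
        omega
      rw [this]
      simp
    · exact sidon_crude hKs hKsub h

/-- lower bound for `h n` from a prime -/
lemma le_h_of_prime {q n : ℕ} (hq : q.Prime) (hn : 3 ≤ n) (hL : n - 2 < q ^ 2 + q + 1) :
    ∃ k : ℕ, n + q ≤ h n + 1 + k ∧ k ^ 2 ≤ 2 * k + 2 * (q ^ 2 + q - (n - 2)) := by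
  obtain ⟨R, k, h1, h2, h3, h4, h5, h6⟩ := exists_ruler hq (L := n - 2) (by omega) hL
  have e : n - 2 + 1 = n - 1 := by omega
  rw [e] at h1
  have := le_h hn h1 h2 h3 h4
  exact ⟨k, by omega, h6⟩

end Pool.Agent.Hhelper78.Cyc
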