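import Pool.Agent.Hhelper78.Cyc.Lab

/-!
# The cycles used in the argument
-/

namespace Pool.Agent.Hhelper78.Cyc

open SimpleGraph

variable {V : Type*} {G : SimpleGraph V} {n : ℕ}

lemma HasCyc.of_eq {H K K' : Set (Sym2 V)} {l : ℕ} (h : HasCyc G H K l) (hK : K = K') :
    HasCyc G H K' l := hK ▸ h

namespace Lab

variable (L : Lab G n)

/-- a path from `v a` to `v b` avoiding a chord gives a cycle -/
lemma close {a b : ℕ} {S : Set ℕ} {K : Set (Sym2 V)} {l : ℕ}
    (h : L.Piece a b S K l) (hadj : G.Adj (L.v a) (L.v b)) (hh : s(L.v a, L.v b) ∉ L.ham)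
    (hK : s(L.v a, L.v b) ∉ K) : HasCyc G L.ham (insert s(L.v a, L.v b) K) (l + 1) := by
  have e : s(L.v b, L.v a) = s(L.v a, L.v b) := Sym2.eq_swap
  have := L.hasCyc_of_piece h hadj.symm (e ▸ hh) (e ▸ hK)
  rwa [e, Set.singleton_union] at this

variable {l : ℕ}

/-- two left chords one after the other -/
lemma shapeA (he : G.Adj (L.v 0) (L.v l)) (heh : s(L.v 0, L.v l) ∉ L.ham) (hl : l < n)
    {x₁ y₁ x₂ y₂ : ℕ} (h1 : x₁ < y₁) (h2 : y₁ ≤ x₂) (h3 : x₂ < y₂) (h4 : y₂ ≤ l)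
    (hf : G.Adj (L.v x₁) (L.v y₁)) (hg : G.Adj (L.v x₂) (L.v y₂))
    (hef : s(L.v 0, L.v l) ≠ s(L.v x₁, L.v y₁)) (heg : s(L.v 0, L.v l) ≠ s(L.v x₂, L.v y₂)) :
    ∃ t, HasCyc G L.ham {s(L.v 0, L.v l), s(L.v x₁, L.v y₁), s(L.v x₂, L.v y₂)} t := by
  have p1 := L.piece_up (a := 0) (b := x₁) (by omega) (by omega)
  have p2 := L.piece_up (a := y₁) (b := x₂) (by omega) (by omega)
  have p3 := L.piece_up (a := y₂) (b := l) (by omega) (by omega)
  have p4 := L.piece_glue p2 hg p3 (by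
    intro i hi j hj; rw [Set.mem_Icc] at hi hj; omega)
  have p5 := L.piece_glue p1 hf p4 (by
    intro i hi j hj
    rw [Set.mem_Icc] at hi
    rw [Set.mem_union, Set.mem_Icc, Set.mem_Icc] at hj; omega)
  have := L.close p5 he heh (by simp [hef, heg])
  refine ⟨_, this.of_eq ?_⟩
  ext z
  simp only [Set.mem_insert_iff, Set.mem_union, Set.mem_singleton_iff, Set.mem_empty_iff_false]
  tauto

/-- two crossing left chords -/
lemma shapeB (he : G.Adj (L.v 0) (L.v l)) (heh : s(L.v 0, L.v l) ∉ L.ham) (hl : l < n)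
    {x₁ y₁ x₂ y₂ : ℕ} (h1 : x₁ < x₂) (h2 : x₂ < y₁) (h3 : y₁ < y₂) (h4 : y₂ ≤ l)
    (hf : G.Adj (L.v x₁) (L.v y₁)) (hg : G.Adj (L.v x₂) (L.v y₂))
    (hef : s(L.v 0, L.v l) ≠ s(L.v x₁, L.v y₁)) (heg : s(L.v 0, L.v l) ≠ s(L.v x₂, L.v y₂)) :
    ∃ t, HasCyc G L.ham {s(L.v 0, L.v l), s(L.v x₁, L.v y₁), s(L.v x₂, L.v y₂)} t := by
  have p1 := L.piece_up (a := 0) (b := x₁) (by omega) (by omega)
  have p2 := L.piece_down (a := x₂) (b := y₁) (by omega) (by omega)
  have p3 := L.piece_up (a := y₂) (b := l) (by omega) (by omega)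
  have p4 := L.piece_glue p2 hg p3 (by
    intro i hi j hj; rw [Set.mem_Icc] at hi hj; omega)
  have p5 := L.piece_glue p1 hf p4 (by
    intro i hi j hj
    rw [Set.mem_Icc] at hi
    rw [Set.mem_union, Set.mem_Icc, Set.mem_Icc] at hj; omega)
  have := L.close p5 he heh (by simp [hef, heg])
  refine ⟨_, this.of_eq ?_⟩
  ext z
  simp only [Set.mem_insert_iff, Set.mem_union, Set.mem_singleton_iff, Set.mem_empty_iff_false]
  tauto

/-- two crossing left chords with a chord inside both -/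
lemma shapeC (he : G.Adj (L.v 0) (L.v l)) (heh : s(L.v 0, L.v l) ∉ L.ham) (hl : l < n)
    {x₁ y₁ x₂ y₂ x₃ y₃ : ℕ} (h1 : x₁ < x₂) (h2 : x₂ ≤ x₃) (h3 : x₃ < y₃) (h4 : y₃ ≤ y₁)
    (h5 : y₁ < y₂) (h6 : y₂ ≤ l)
    (hf : G.Adj (L.v x₁) (L.v y₁)) (hg : G.Adj (L.v x₂) (L.v y₂)) (hd : G.Adj (L.v x₃) (L.v y₃))
    (hef : s(L.v 0, L.v l) ≠ s(L.v x₁, L.v y₁)) (heg : s(L.v 0, L.v l) ≠ s(L.v x₂, L.v y₂))
    (hed : s(L.v 0, L.v l) ≠ s(L.v x₃, L.v y₃)) :
    ∃ t, HasCyc G L.ham {s(L.v 0, L.v l), s(L.v x₁, L.v y₁), s(L.v x₂, L.v y₂),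
      s(L.v x₃, L.v y₃)} t := by
  have p1 := L.piece_up (a := 0) (b := x₁) (by omega) (by omega)
  have p2 := L.piece_down (a := y₃) (b := y₁) (by omega) (by omega)
  have p3 := L.piece_down (a := x₂) (b := x₃) (by omega) (by omega)
  have p4 := L.piece_up (a := y₂) (b := l) (by omega) (by omega)
  have p5 := L.piece_glue p3 hg p4 (by
    intro i hi j hj; rw [Set.mem_Icc] at hi hj; omega)
  have p6 := L.piece_glue p2 hd.symm p5 (by
    intro i hi j hj
    rw [Set.mem_Icc] at hi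
    rw [Set.mem_union, Set.mem_Icc, Set.mem_Icc] at hj; omega)
  have p7 := L.piece_glue p1 hf p6 (by
    intro i hi j hj
    rw [Set.mem_Icc] at hi
    rw [Set.mem_union, Set.mem_union, Set.mem_Icc, Set.mem_Icc, Set.mem_Icc] at hj; omega)
  have e3 : s(L.v y₃, L.v x₃) = s(L.v x₃, L.v y₃) := Sym2.eq_swap
  rw [e3] at p7
  have := L.close p7 he heh (by simp [hef, heg, hed])
  refine ⟨_, this.of_eq ?_⟩
  ext z
  simp only [Set.mem_insert_iff, Set.mem_union, Set.mem_singleton_iff, Set.mem_empty_iff_false]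
  tauto

/-- a crossing chord and a left chord before it -/
lemma shapeX1 (he : G.Adj (L.v 0) (L.v l)) (heh : s(L.v 0, L.v l) ∉ L.ham)
    {x y x' y' : ℕ} (h1 : x' < y') (h2 : y' ≤ x) (h3 : x < l) (h4 : l < y) (h5 : y < n)
    (hg : G.Adj (L.v x) (L.v y)) (hk : G.Adj (L.v x') (L.v y'))
    (heg : s(L.v 0, L.v l) ≠ s(L.v x, L.v y)) (hek : s(L.v 0, L.v l) ≠ s(L.v x', L.v y')) :
    ∃ t, HasCyc G L.ham {s(L.v 0, L.v l), s(L.v x, L.v y), s(L.v x', L.v y')} t := by
  have p1 := L.piece_up (a := 0) (b := x') (by omega) (by omega)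
  have p2 := L.piece_up (a := y') (b := x) (by omega) (by omega)
  have p3 := L.piece_down (a := l) (b := y) (by omega) (by omega)
  have p4 := L.piece_glue p2 hg p3 (by
    intro i hi j hj; rw [Set.mem_Icc] at hi hj; omega)
  have p5 := L.piece_glue p1 hk p4 (by
    intro i hi j hj
    rw [Set.mem_Icc] at hi
    rw [Set.mem_union, Set.mem_Icc, Set.mem_Icc] at hj; omega)
  have := L.close p5 he heh (by simp [heg, hek])
  refine ⟨_, this.of_eq ?_⟩
  ext z
  simp only [Set.mem_insert_iff, Set.mem_union, Set.mem_singleton_iff, Set.mem_empty_iff_false]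
  tauto

/-- a crossing chord and a left chord after it -/
lemma shapeX2 (he : G.Adj (L.v 0) (L.v l)) (heh : s(L.v 0, L.v l) ∉ L.ham)
    {x y x' y' : ℕ} (h0 : 0 < x) (h1 : x ≤ x') (h2 : x' < y') (h3 : y' ≤ l) (h4 : l < y)
    (h5 : y < n)
    (hg : G.Adj (L.v x) (L.v y)) (hk : G.Adj (L.v x') (L.v y'))
    (heg : s(L.v 0, L.v l) ≠ s(L.v x, L.v y)) (hek : s(L.v 0, L.v l) ≠ s(L.v x', L.v y')) :
    ∃ t, HasCyc G L.ham {s(L.v 0, L.v l), s(L.v x, L.v y), s(L.v x', L.v y')} t := by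
  have p1 := L.piece_down (a := y) (b := n) (by omega) (by omega)
  have p2 := L.piece_up (a := x) (b := x') (by omega) (by omega)
  have p3 := L.piece_up (a := y') (b := l) (by omega) (by omega)
  have p4 := L.piece_glue p2 hk p3 (by
    intro i hi j hj; rw [Set.mem_Icc] at hi hj; omega)
  have p5 := L.piece_glue p1 hg.symm p4 (by
    intro i hi j hj
    rw [Set.mem_Icc] at hi
    rw [Set.mem_union, Set.mem_Icc, Set.mem_Icc] at hj; omega)
  have e1 : s(L.v y, L.v x) = s(L.v x, L.v y) := Sym2.eq_swap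
  rw [e1] at p5
  rw [← L.v_n] at he heh heg hek ⊢
  have := L.close p5 he heh (by simp [heg, hek])
  refine ⟨_, this.of_eq ?_⟩
  ext z
  simp only [Set.mem_insert_iff, Set.mem_union, Set.mem_singleton_iff, Set.mem_empty_iff_false]
  tauto

/-- a crossing chord and a left chord crossing it -/
lemma shapeX3 (he : G.Adj (L.v 0) (L.v l)) (heh : s(L.v 0, L.v l) ∉ L.ham)
    {x y x' y' : ℕ} (h1 : x' < x) (h2 : x < y') (h3 : y' ≤ l) (h4 : l < y)
    (h5 : y < n)
    (hg : G.Adj (L.v x) (L.v y)) (hk : G.Adj (L.v x') (L.v y'))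
    (heg : s(L.v 0, L.v l) ≠ s(L.v x, L.v y)) (hek : s(L.v 0, L.v l) ≠ s(L.v x', L.v y')) :
    ∃ t, HasCyc G L.ham {s(L.v 0, L.v l), s(L.v x, L.v y), s(L.v x', L.v y')} t := by
  rcases eq_or_lt_of_le h3 with h3' | h3'
  · -- `y' = l`: use the other side
    subst h3'
    have p1 := L.piece_down (a := y) (b := n) (by omega) (by omega)
    have p2 := L.piece_down (a := x') (b := x) (by omega) (by omega)
    have p3 := L.piece_nil y'
    by_cases hx' : x' = 0
    · subst hx'; exact absurd rfl hek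
    have p4 := L.piece_glue p2 hk p3 (by
      intro i hi j hj; rw [Set.mem_Icc] at hi hj; omega)
    have p5 := L.piece_glue p1 hg.symm p4 (by
      intro i hi j hj
      rw [Set.mem_Icc] at hi
      rw [Set.mem_union, Set.mem_Icc, Set.mem_Icc] at hj; omega)
    have e1 : s(L.v y, L.v x) = s(L.v x, L.v y) := Sym2.eq_swap
    rw [e1] at p5
    rw [← L.v_n] at he heh heg hek ⊢
    have := L.close p5 he heh (by simp [heg, hek])
    refine ⟨_, this.of_eq ?_⟩
    ext z
    simp only [Set.mem_insert_iff, Set.mem_union, Set.mem_singleton_iff, Set.mem_empty_iff_false]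
    tauto
  · have p1 := L.piece_up (a := 0) (b := x') (by omega) (by omega)
    have p2 := L.piece_down (a := x) (b := y') (by omega) (by omega)
    have p3 := L.piece_down (a := l) (b := y) (by omega) (by omega)
    have p4 := L.piece_glue p2 hg p3 (by
      intro i hi j hj; rw [Set.mem_Icc] at hi hj; omega)
    have p5 := L.piece_glue p1 hk p4 (by
      intro i hi j hj
      rw [Set.mem_Icc] at hi
      rw [Set.mem_union, Set.mem_Icc, Set.mem_Icc] at hj; omega)
    have := L.close p5 he heh (by simp [heg, hek])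
    refine ⟨_, this.of_eq ?_⟩
    ext z
    simp only [Set.mem_insert_iff, Set.mem_union, Set.mem_singleton_iff, Set.mem_empty_iff_false]
    tauto

/-- two crossing chords, first endpoints different -/
lemma shapeX4 (he : G.Adj (L.v 0) (L.v l)) (heh : s(L.v 0, L.v l) ∉ L.ham)
    {x y x' y' : ℕ} (h1 : x < x') (h2 : x' < l) (h3 : l < y) (h4 : y < n) (h5 : l < y')
    (h6 : y' < n)
    (hg : G.Adj (L.v x) (L.v y)) (hk : G.Adj (L.v x') (L.v y'))
    (heg : s(L.v 0, L.v l) ≠ s(L.v x, L.v y)) (hek : s(L.v 0, L.v l) ≠ s(L.v x', L.v y')) :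
    ∃ t, HasCyc G L.ham {s(L.v 0, L.v l), s(L.v x, L.v y), s(L.v x', L.v y')} t := by
  have p1 := L.piece_up (a := 0) (b := x) (by omega) (by omega)
  have p3 := L.piece_up (a := x') (b := l) (by omega) (by omega)
  have e1 : s(L.v y', L.v x') = s(L.v x', L.v y') := Sym2.eq_swap
  rcases le_total y y' with hy | hy
  · have p2 := L.piece_up (a := y) (b := y') (by omega) (by omega)
    have p4 := L.piece_glue p2 hk.symm p3 (by
      intro i hi j hj; rw [Set.mem_Icc] at hi hj; omega)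
    have p5 := L.piece_glue p1 hg p4 (by
      intro i hi j hj
      rw [Set.mem_Icc] at hi
      rw [Set.mem_union, Set.mem_Icc, Set.mem_Icc] at hj; omega)
    rw [e1] at p5
    have := L.close p5 he heh (by simp [heg, hek])
    refine ⟨_, this.of_eq ?_⟩
    ext z
    simp only [Set.mem_insert_iff, Set.mem_union, Set.mem_singleton_iff, Set.mem_empty_iff_false]
    tauto
  · have p2 := L.piece_down (a := y') (b := y) (by omega) (by omega)
    have p4 := L.piece_glue p2 hk.symm p3 (by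
      intro i hi j hj; rw [Set.mem_Icc] at hi hj; omega)
    have p5 := L.piece_glue p1 hg p4 (by
      intro i hi j hj
      rw [Set.mem_Icc] at hi
      rw [Set.mem_union, Set.mem_Icc, Set.mem_Icc] at hj; omega)
    rw [e1] at p5
    have := L.close p5 he heh (by simp [heg, hek])
    refine ⟨_, this.of_eq ?_⟩
    ext z
    simp only [Set.mem_insert_iff, Set.mem_union, Set.mem_singleton_iff, Set.mem_empty_iff_false]
    tauto

/-- two crossing chords with the same first endpoint -/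
lemma shapeX6 (he : G.Adj (L.v 0) (L.v l)) (heh : s(L.v 0, L.v l) ∉ L.ham)
    {x y y' : ℕ} (h0 : 0 < x) (h2 : x < l) (h3 : l < y') (h4 : y' < y) (h5 : y < n)
    (hg : G.Adj (L.v x) (L.v y)) (hk : G.Adj (L.v x) (L.v y'))
    (heg : s(L.v 0, L.v l) ≠ s(L.v x, L.v y)) (hek : s(L.v 0, L.v l) ≠ s(L.v x, L.v y')) :
    ∃ t, HasCyc G L.ham {s(L.v 0, L.v l), s(L.v x, L.v y), s(L.v x, L.v y')} t := by
  have p1 := L.piece_down (a := y) (b := n) (by omega) (by omega)
  have p2 := L.piece_nil x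
  have p3 := L.piece_down (a := l) (b := y') (by omega) (by omega)
  have p4 := L.piece_glue p2 hk p3 (by
    intro i hi j hj; rw [Set.mem_Icc] at hi hj; omega)
  have p5 := L.piece_glue p1 hg.symm p4 (by
    intro i hi j hj
    rw [Set.mem_Icc] at hi
    rw [Set.mem_union, Set.mem_Icc, Set.mem_Icc] at hj; omega)
  have e1 : s(L.v y, L.v x) = s(L.v x, L.v y) := Sym2.eq_swap
  rw [e1] at p5
  rw [← L.v_n] at he heh heg hek ⊢
  have := L.close p5 he heh (by simp [heg, hek])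
  refine ⟨_, this.of_eq ?_⟩
  ext z
  simp only [Set.mem_insert_iff, Set.mem_union, Set.mem_singleton_iff, Set.mem_empty_iff_false]
  tauto

/-- the cycle of a nested pair, with its length -/
lemma shapeN {x₁ y₁ x₂ y₂ : ℕ} (h1 : x₁ ≤ x₂) (h2 : x₂ < y₂) (h3 : y₂ ≤ y₁) (h4 : y₁ < x₁ + n)
    (hf : G.Adj (L.v x₁) (L.v y₁)) (hg : G.Adj (L.v x₂) (L.v y₂))
    (hfh : s(L.v x₁, L.v y₁) ∉ L.ham) (hfg : s(L.v x₁, L.v y₁) ≠ s(L.v x₂, L.v y₂)) :
    HasCyc G L.ham {s(L.v x₁, L.v y₁), s(L.v x₂, L.v y₂)} ((y₁ - x₁) - (y₂ - x₂) + 2) := by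
  have p1 := L.piece_up (a := x₁) (b := x₂) (by omega) (by omega)
  have p2 := L.piece_up (a := y₂) (b := y₁) (by omega) (by omega)
  have p3 := L.piece_glue p1 hg p2 (by
    intro i hi j hj; rw [Set.mem_Icc] at hi hj; omega)
  have := L.close p3 hf hfh (by simp [hfg])
  have e : x₂ - x₁ + 1 + (y₁ - y₂) + 1 = (y₁ - x₁) - (y₂ - x₂) + 2 := by omega
  rw [e] at this
  refine this.of_eq ?_
  ext z
  simp only [Set.mem_insert_iff, Set.mem_union, Set.mem_singleton_iff, Set.mem_empty_iff_false]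
  tauto

end Lab

end Pool.Agent.Hhelper78.Cyc
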