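import Pool.Agent.Hhelper78.Cyc.Count

/-!
# The structure of the chords around a good chord
-/

namespace Pool.Agent.Hhelper78.Cyc

open SimpleGraph

variable {V : Type*} [Fintype V] [DecidableEq V] {G : SimpleGraph V} {n : ℕ}

namespace Lab

variable {L : Lab G n} {l : ℕ}

lemma mem_famE_of {e f g : Sym2 V} {t : ℕ} {H : Set (Sym2 V)}
    (he : e ∈ chords G H) (hf : f ∈ chords G H) (hg : g ∈ chords G H)
    (h : HasCyc G H {e, f, g} t) : ({e, f, g} : Finset (Sym2 V)) ∈ famE G H e := by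
  rw [mem_famE, mem_fam]
  refine ⟨⟨?_, t, ?_⟩, by simp, ?_⟩
  · intro x hx
    simp only [Finset.mem_insert, Finset.mem_singleton] at hx
    rcases hx with rfl | rfl | rfl <;> assumption
  · exact h.of_eq (by simp)
  · exact (Finset.card_le_three).trans (by norm_num)

lemma mem_famE_of4 {e f g d : Sym2 V} {t : ℕ} {H : Set (Sym2 V)}
    (he : e ∈ chords G H) (hf : f ∈ chords G H) (hg : g ∈ chords G H) (hd : d ∈ chords G H)
    (h : HasCyc G H {e, f, g, d} t) : ({e, f, g, d} : Finset (Sym2 V)) ∈ famE G H e := by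
  rw [mem_famE, mem_fam]
  refine ⟨⟨?_, t, ?_⟩, by simp, ?_⟩
  · intro x hx
    simp only [Finset.mem_insert, Finset.mem_singleton] at hx
    rcases hx with rfl | rfl | rfl | rfl <;> assumption
  · exact h.of_eq (by simp)
  · exact Finset.card_le_four

/-- left chords -/
noncomputable def leftC (L : Lab G n) (l : ℕ) : Finset (Sym2 V) :=
  open Classical in (chords G L.ham).filter fun f => L.IsLeft l f ∧ f ≠ L.e l

lemma mem_leftC {f : Sym2 V} : f ∈ L.leftC l ↔ f ∈ chords G L.ham ∧ L.IsLeft l f ∧ f ≠ L.e l := by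
  classical
  unfold leftC
  simp

noncomputable def crossC (L : Lab G n) (l : ℕ) : Finset (Sym2 V) :=
  open Classical in (chords G L.ham).filter fun f => L.IsCross l f ∧ f ≠ L.e l

lemma mem_crossC {f : Sym2 V} : f ∈ L.crossC l ↔ f ∈ chords G L.ham ∧ L.IsCross l f ∧ f ≠ L.e l := by
  classical
  unfold crossC
  simp

lemma e_mem (B : L.Base l) : L.e l ∈ chords G L.ham :=
  mem_chords.mpr ⟨B.adj, B.not_ham⟩

/-- two bad pairs of left chords -/
lemma two_pairs (B : L.Base l) {f g p q : Sym2 V} (hf : f ∈ L.leftC l) (hg : g ∈ L.leftC l)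
    (hp : p ∈ L.leftC l) (hq : q ∈ L.leftC l) (h1 : L.Bad l f g) (h2 : L.Bad l p q) :
    ∃ K ∈ famE G L.ham (L.e l), K ⊆ {L.e l, f, g, p, q} ∧ (f ∈ K ∨ g ∈ K) ∧ (p ∈ K ∨ q ∈ K) := by
  rw [mem_leftC] at hf hg hp hq
  obtain ⟨hf1, hf2, hf3⟩ := hf
  obtain ⟨hg1, hg2, hg3⟩ := hg
  obtain ⟨hp1, hp2, hp3⟩ := hp
  obtain ⟨hq1, hq2, hq3⟩ := hq
  have hfG := (mem_chords.mp hf1).1
  have hgG := (mem_chords.mp hg1).1
  have hpG := (mem_chords.mp hp1).1
  have hqG := (mem_chords.mp hq1).1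
  have heC := e_mem B
  -- a bad cross pair
  have key : ∀ a b : Sym2 V, a ∈ chords G L.ham → b ∈ chords G L.ham → L.IsLeft l a →
      L.IsLeft l b → a ≠ L.e l → b ≠ L.e l → (a = f ∨ a = g) → (b = p ∨ b = q) →
      (L.Bad l a b ∨ L.Bad l b a) →
      ∃ K ∈ famE G L.ham (L.e l), K ⊆ {L.e l, f, g, p, q} ∧ (f ∈ K ∨ g ∈ K) ∧
        (p ∈ K ∨ q ∈ K) := by
    intro a b ha hb ha2 hb2 ha3 hb3 haf hbp hbad
    have hK : ∃ t, HasCyc G L.ham {L.e l, a, b} t := by
      rcases hbad with h | h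
      · exact bad_pair B ha2 hb2 (mem_chords.mp ha).1 (mem_chords.mp hb).1 ha3.symm hb3.symm h
      · obtain ⟨t, ht⟩ := bad_pair B hb2 ha2 (mem_chords.mp hb).1 (mem_chords.mp ha).1
          hb3.symm ha3.symm h
        exact ⟨t, ht.of_eq (by rw [Set.pair_comm b a])⟩
    obtain ⟨t, ht⟩ := hK
    refine ⟨{L.e l, a, b}, mem_famE_of heC ha hb ht, ?_, ?_, ?_⟩
    · intro x hx
      simp only [Finset.mem_insert, Finset.mem_singleton] at hx ⊢
      rcases hx with rfl | rfl | rfl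
      · exact Or.inl rfl
      · rcases haf with rfl | rfl <;> simp
      · rcases hbp with rfl | rfl <;> simp
    · rcases haf with rfl | rfl <;> simp
    · rcases hbp with rfl | rfl <;> simp
  by_cases hfp : L.Bad l f p ∨ L.Bad l p f
  · exact key f p hf1 hp1 hf2 hp2 hf3 hp3 (Or.inl rfl) (Or.inl rfl) hfp
  by_cases hfq : L.Bad l f q ∨ L.Bad l q f
  · exact key f q hf1 hq1 hf2 hq2 hf3 hq3 (Or.inl rfl) (Or.inr rfl) hfq
  by_cases hgp : L.Bad l g p ∨ L.Bad l p g
  · exact key g p hg1 hp1 hg2 hp2 hg3 hp3 (Or.inr rfl) (Or.inl rfl) hgp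
  by_cases hgq : L.Bad l g q ∨ L.Bad l q g
  · exact key g q hg1 hq1 hg2 hq2 hg3 hq3 (Or.inr rfl) (Or.inr rfl) hgq
  unfold Bad at h1 h2 hfp hfq hgp hgq
  -- now all cross pairs are nested
  have hcase : (L.lx l g ≤ L.lx l p ∧ L.ly l p ≤ L.ly l f) ∨
      (L.lx l q ≤ L.lx l f ∧ L.ly l f ≤ L.ly l p) := by omega
  rcases hcase with ⟨a1, a2⟩ | ⟨a1, a2⟩
  · obtain ⟨t, ht⟩ := bad_triple B hf2 hg2 hp2 hfG hgG hpG hf3.symm hg3.symm hp3.symm h1 a1 a2
    refine ⟨{L.e l, f, g, p}, mem_famE_of4 heC hf1 hg1 hp1 ht, ?_, ?_, ?_⟩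
    · intro x hx
      simp only [Finset.mem_insert, Finset.mem_singleton] at hx
      rcases hx with hx | hx | hx | hx <;> rw [hx] <;> simp
    · simp
    · simp
  · obtain ⟨t, ht⟩ := bad_triple B hp2 hq2 hf2 hpG hqG hfG hp3.symm hq3.symm hf3.symm h2 a1 a2
    refine ⟨{L.e l, p, q, f}, mem_famE_of4 heC hp1 hq1 hf1 ht, ?_, ?_, ?_⟩
    · intro x hx
      simp only [Finset.mem_insert, Finset.mem_singleton] at hx
      rcases hx with hx | hx | hx | hx <;> rw [hx] <;> simp
    · simp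
    · simp

/-- The left side: up to a matching with few pairs, the left chords are nested. -/
lemma left_side (B : L.Base l) : ∃ (M : Finset (Sym2 V × Sym2 V)) (R : Finset (Sym2 V)),
    M.card * (M.card - 1) ≤ 2 * (famE G L.ham (L.e l)).card ∧
    R ⊆ L.leftC l ∧ (L.leftC l).card ≤ R.card + 2 * M.card ∧
    (∀ f ∈ L.leftC l, f ∈ R ∨ ∃ p ∈ M, f = p.1 ∨ f = p.2) ∧
    (∀ f ∈ R, ∀ g ∈ R, ¬ L.Bad l f g) := by
  classical
  obtain ⟨M, h1, h2, h3⟩ := exists_matching (L.Bad l) (fun a h => lt_irrefl _ h.1) (L.leftC l)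
  let R := (L.leftC l).filter fun f => ∀ p ∈ M, f ≠ p.1 ∧ f ≠ p.2
  have hcov : ∀ f ∈ L.leftC l, f ∈ R ∨ ∃ p ∈ M, f = p.1 ∨ f = p.2 := by
    intro f hf
    by_cases h : ∀ p ∈ M, f ≠ p.1 ∧ f ≠ p.2
    · exact Or.inl (Finset.mem_filter.mpr ⟨hf, h⟩)
    · push Not at h
      obtain ⟨p, hp, hp'⟩ := h
      refine Or.inr ⟨p, hp, ?_⟩
      by_cases h4 : f = p.1
      · exact Or.inl h4
      · exact Or.inr (hp' h4)
  refine ⟨M, R, ?_, Finset.filter_subset _ _, ?_, hcov, ?_⟩
  · -- counting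
    have hch : ∀ x : (Sym2 V × Sym2 V) × (Sym2 V × Sym2 V), ∃ K : Finset (Sym2 V),
        x ∈ M.offDiag → K ∈ famE G L.ham (L.e l) ∧ K ⊆ {L.e l, x.1.1, x.1.2, x.2.1, x.2.2} ∧
          (x.1.1 ∈ K ∨ x.1.2 ∈ K) ∧ (x.2.1 ∈ K ∨ x.2.2 ∈ K) := by
      intro x
      by_cases hx : x ∈ M.offDiag
      · rw [Finset.mem_offDiag] at hx
        obtain ⟨a1, a2, a3⟩ := h1 _ hx.1
        obtain ⟨b1, b2, b3⟩ := h1 _ hx.2.1
        obtain ⟨K, hK⟩ := two_pairs B a1 a2 b1 b2 a3 b3
        exact ⟨K, fun _ => hK⟩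
      · exact ⟨∅, fun h => absurd h hx⟩
    choose κ hκ using hch
    have hne : ∀ p ∈ M, p.1 ≠ L.e l ∧ p.2 ≠ L.e l := by
      intro p hp
      obtain ⟨a1, a2, a3⟩ := h1 _ hp
      exact ⟨(mem_leftC.mp a1).2.2, (mem_leftC.mp a2).2.2⟩
    have hcard := card_pairs_le M.offDiag κ (famE G L.ham (L.e l)) (fun x hx => (hκ x hx).1) (by
      intro x hx y hy hxy
      obtain ⟨-, s1, -, -⟩ := hκ x hx
      obtain ⟨-, -, s2, s3⟩ := hκ y hy
      rw [← hxy] at s2 s3
      rw [Finset.mem_offDiag] at hx hy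
      -- each of `y.1`, `y.2` is `x.1` or `x.2`
      have hone : ∀ p ∈ M, (p.1 ∈ κ x ∨ p.2 ∈ κ x) → p = x.1 ∨ p = x.2 := by
        intro p hp hpK
        by_contra hcon
        push Not at hcon
        obtain ⟨c1, c2, c3, c4⟩ := h2 p hp x.1 hx.1 hcon.1
        obtain ⟨d1, d2, d3, d4⟩ := h2 p hp x.2 hx.2.1 hcon.2
        obtain ⟨e1, e2⟩ := hne p hp
        rcases hpK with h | h
        · have := s1 h
          simp only [Finset.mem_insert, Finset.mem_singleton] at this
          tauto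
        · have := s1 h
          simp only [Finset.mem_insert, Finset.mem_singleton] at this
          tauto
      rcases hone y.1 hy.1 s2 with h | h <;> rcases hone y.2 hy.2.1 s3 with h' | h'
      · exact absurd (h.trans h'.symm) hy.2.2
      · exact Or.inl (Prod.ext h h')
      · exact Or.inr (Prod.ext h h')
      · exact absurd (h.trans h'.symm) hy.2.2)
    rw [Finset.offDiag_card] at hcard
    calc M.card * (M.card - 1) = M.card * M.card - M.card := by
          rw [Nat.mul_sub, mul_one]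
      _ ≤ _ := hcard
  · calc (L.leftC l).card ≤ (R ∪ (M.image Prod.fst ∪ M.image Prod.snd)).card := by
          apply Finset.card_le_card
          intro f hf
          rw [Finset.mem_union, Finset.mem_union, Finset.mem_image, Finset.mem_image]
          rcases hcov f hf with h | ⟨p, hp, h | h⟩
          · exact Or.inl h
          · exact Or.inr (Or.inl ⟨p, hp, h.symm⟩)
          · exact Or.inr (Or.inr ⟨p, hp, h.symm⟩)
      _ ≤ R.card + (M.image Prod.fst ∪ M.image Prod.snd).card := Finset.card_union_le _ _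
      _ ≤ R.card + ((M.image Prod.fst).card + (M.image Prod.snd).card) := by
          gcongr; exact Finset.card_union_le _ _
      _ ≤ R.card + (M.card + M.card) := by
          gcongr <;> exact Finset.card_image_le
      _ = _ := by ring
  · intro f hf g hg
    rw [Finset.mem_filter] at hf hg
    exact h3 f hf.1 g hg.1 hf.2 hg.2

/-- The crossing chords are few. -/
lemma cross_side (B : L.Base l) :
    (L.crossC l).card * ((chords G L.ham).card - 2) ≤ 2 * (famE G L.ham (L.e l)).card := by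
  classical
  let D : Finset (Sym2 V × Sym2 V) := ((L.crossC l) ×ˢ (chords G L.ham)).filter
    fun x => x.2 ≠ L.e l ∧ x.2 ≠ x.1
  have hD : (L.crossC l).card * ((chords G L.ham).card - 2) ≤ D.card := by
    have h1 : D.card = ∑ g ∈ L.crossC l, ((chords G L.ham).filter
        fun k => k ≠ L.e l ∧ k ≠ g).card := by
      simp only [D, Finset.card_filter]
      rw [Finset.sum_product]
    rw [h1, ← smul_eq_mul]
    apply Finset.card_nsmul_le_sum
    intro g hg
    have h2 : (chords G L.ham) ⊆ ((chords G L.ham).filter fun k => k ≠ L.e l ∧ k ≠ g) ∪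
        {L.e l, g} := by
      intro k hk
      rw [Finset.mem_union, Finset.mem_filter, Finset.mem_insert, Finset.mem_singleton]
      tauto
    have h3 := (Finset.card_le_card h2).trans (Finset.card_union_le _ _)
    have h4 : ({L.e l, g} : Finset (Sym2 V)).card ≤ 2 := Finset.card_le_two
    omega
  refine hD.trans ?_
  apply card_pairs_le D (fun x => {L.e l, x.1, x.2})
  · intro x hx
    simp only [D, Finset.mem_filter, Finset.mem_product] at hx
    obtain ⟨⟨h1, h2⟩, h3, h4⟩ := hx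
    rw [mem_crossC] at h1
    obtain ⟨t, ht⟩ := cross_third B h1.2.1 (mem_chords.mp h1.1).1 (mem_chords.mp h2).1
      h1.2.2.symm h3.symm h4.symm
    exact mem_famE_of (e_mem B) h1.1 h2 ht
  · intro x hx y hy hxy
    simp only [D, Finset.mem_filter, Finset.mem_product] at hx hy
    obtain ⟨⟨h1, h2⟩, h3, h4⟩ := hx
    obtain ⟨⟨h1', h2'⟩, h3', h4'⟩ := hy
    rw [mem_crossC] at h1 h1'
    have a1 : y.1 ∈ ({L.e l, x.1, x.2} : Finset (Sym2 V)) := by rw [hxy]; simp
    have a2 : y.2 ∈ ({L.e l, x.1, x.2} : Finset (Sym2 V)) := by rw [hxy]; simp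
    simp only [Finset.mem_insert, Finset.mem_singleton] at a1 a2
    have b1 := h1'.2.2
    rcases a1 with a1 | a1 | a1
    · exact absurd a1 b1
    · rcases a2 with a2 | a2 | a2
      · exact absurd a2 h3'
      · exact absurd (a2.trans a1.symm) h4'
      · exact Or.inl (Prod.ext a1 a2)
    · rcases a2 with a2 | a2 | a2
      · exact absurd a2 h3'
      · exact Or.inr (Prod.ext a1 a2)
      · exact absurd (a2.trans a1.symm) h4'

end Lab

end Pool.Agent.Hhelper78.Cyc
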