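import Pool.Agent.Hhelper78.Cyc.Shapes

/-!
# Left, right and crossing chords
-/

namespace Pool.Agent.Hhelper78.Cyc

open SimpleGraph

variable {V : Type*} {G : SimpleGraph V} {n : ℕ}

namespace Lab

variable (L : Lab G n) (l : ℕ)

def IsLeft (f : Sym2 V) : Prop := ∃ x y, x < y ∧ y ≤ l ∧ f = s(L.v x, L.v y)

def IsRight (f : Sym2 V) : Prop := ∃ x y, l ≤ x ∧ x < y ∧ y ≤ n ∧ f = s(L.v x, L.v y)

def IsCross (f : Sym2 V) : Prop := ∃ x y, 0 < x ∧ x < l ∧ l < y ∧ y < n ∧ f = s(L.v x, L.v y)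

/-- the base chord -/
structure Base : Prop where
  pos : 0 < l
  lt : l < n
  adj : G.Adj (L.v 0) (L.v l)
  not_ham : s(L.v 0, L.v l) ∉ L.ham

/-- the base edge -/
def e : Sym2 V := s(L.v 0, L.v l)

variable {L l}

lemma mir_e (hl : l ≤ n) : L.mir.e (n - l) = L.e l := by
  unfold e
  rw [L.mir_v (Nat.zero_le _), L.mir_v (Nat.sub_le _ _), Nat.sub_zero, Nat.sub_sub_self hl, L.v_n]

lemma Base.mir (B : L.Base l) : L.mir.Base (n - l) where
  pos := by have := B.lt; omega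
  lt := by have := B.pos; have := B.lt; omega
  adj := by
    rw [L.mir_v (Nat.zero_le _), L.mir_v (Nat.sub_le _ _), Nat.sub_zero, Nat.sub_sub_self B.lt.le,
      L.v_n]
    exact B.adj
  not_ham := by
    rw [L.mir_v (Nat.zero_le _), L.mir_v (Nat.sub_le _ _), Nat.sub_zero, Nat.sub_sub_self B.lt.le,
      L.v_n, L.mir_ham]
    exact B.not_ham

lemma IsRight.mir {f : Sym2 V} (h : L.IsRight l f) : L.mir.IsLeft (n - l) f := by
  obtain ⟨x, y, h1, h2, h3, rfl⟩ := h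
  refine ⟨n - y, n - x, by omega, by omega, ?_⟩
  rw [L.mir_v (Nat.sub_le _ _), L.mir_v (Nat.sub_le _ _), Nat.sub_sub_self h3,
    Nat.sub_sub_self (by omega)]
  exact Sym2.eq_swap

lemma IsCross.mir {f : Sym2 V} (h : L.IsCross l f) : L.mir.IsCross (n - l) f := by
  obtain ⟨x, y, h1, h2, h3, h4, rfl⟩ := h
  refine ⟨n - y, n - x, by omega, by omega, by omega, by omega, ?_⟩
  rw [L.mir_v (Nat.sub_le _ _), L.mir_v (Nat.sub_le _ _), Nat.sub_sub_self (by omega),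
    Nat.sub_sub_self (by omega)]
  exact Sym2.eq_swap

lemma exists_lt (x : V) : ∃ i < n, L.v i = x := by
  obtain ⟨i, hi⟩ := L.surj x
  have h0 := L.three_le
  refine ⟨i % n, Nat.mod_lt _ (by omega), ?_⟩
  rw [← hi, L.eq_iff]
  exact Nat.mod_modEq _ _

lemma classify_aux {i j : ℕ} (hij : i < j) (hj : j < n) :
    L.IsLeft l s(L.v i, L.v j) ∨ L.IsRight l s(L.v i, L.v j) ∨ L.IsCross l s(L.v i, L.v j) := by
  rcases le_or_gt j l with h | h
  · exact Or.inl ⟨i, j, hij, h, rfl⟩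
  · rcases le_or_gt l i with h' | h'
    · exact Or.inr (Or.inl ⟨i, j, h', hij, hj.le, rfl⟩)
    · rcases Nat.eq_zero_or_pos i with h0 | h0
      · subst h0
        refine Or.inr (Or.inl ⟨j, n, h.le, hj, le_rfl, ?_⟩)
        rw [L.v_n]
        exact Sym2.eq_swap
      · exact Or.inr (Or.inr ⟨i, j, h0, h', h, hj, rfl⟩)

lemma classify {f : Sym2 V} (hf : f ∈ G.edgeSet) :
    L.IsLeft l f ∨ L.IsRight l f ∨ L.IsCross l f := by
  induction f using Sym2.ind with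
  | _ a b =>
    rw [mem_edgeSet] at hf
    obtain ⟨i, hi, rfl⟩ := L.exists_lt a
    obtain ⟨j, hj, rfl⟩ := L.exists_lt b
    have hne : i ≠ j := fun h => by subst h; exact G.loopless.irrefl _ hf
    rcases lt_or_gt_of_ne hne with h | h
    · exact classify_aux h hj
    · rw [Sym2.eq_swap]
      exact classify_aux h hi

lemma cross_left (B : L.Base l) {g k : Sym2 V} (hg : L.IsCross l g) (hk : L.IsLeft l k)
    (hgG : g ∈ G.edgeSet) (hkG : k ∈ G.edgeSet) (heg : L.e l ≠ g) (hek : L.e l ≠ k) :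
    ∃ t, HasCyc G L.ham {L.e l, g, k} t := by
  obtain ⟨x, y, h1, h2, h3, h4, rfl⟩ := hg
  obtain ⟨x', y', h1', h2', rfl⟩ := hk
  rw [mem_edgeSet] at hgG hkG
  rcases le_or_gt y' x with h | h
  · exact L.shapeX1 B.adj B.not_ham h1' h h2 h3 h4 hgG hkG heg hek
  · rcases le_or_gt x x' with h' | h'
    · exact L.shapeX2 B.adj B.not_ham h1 h' h1' h2' h3 h4 hgG hkG heg hek
    · exact L.shapeX3 B.adj B.not_ham h' h h2' h3 h4 hgG hkG heg hek

lemma cross_cross (B : L.Base l) {g k : Sym2 V} (hg : L.IsCross l g) (hk : L.IsCross l k)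
    (hgG : g ∈ G.edgeSet) (hkG : k ∈ G.edgeSet) (heg : L.e l ≠ g) (hek : L.e l ≠ k)
    (hgk : g ≠ k) : ∃ t, HasCyc G L.ham {L.e l, g, k} t := by
  obtain ⟨x, y, h1, h2, h3, h4, rfl⟩ := hg
  obtain ⟨x', y', h1', h2', h3', h4', rfl⟩ := hk
  rw [mem_edgeSet] at hgG hkG
  rcases lt_trichotomy x x' with h | h | h
  · exact L.shapeX4 B.adj B.not_ham h h2' h3 h4 h3' h4' hgG hkG heg hek
  · subst h
    rcases lt_trichotomy y y' with h | h | h
    · obtain ⟨t, ht⟩ := L.shapeX6 B.adj B.not_ham h1 h2 h3 h h4' hkG hgG hek heg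
      exact ⟨t, ht.of_eq (by unfold e; rw [Set.pair_comm (s(L.v x, L.v y')) _])⟩
    · subst h; exact absurd rfl hgk
    · exact L.shapeX6 B.adj B.not_ham h1 h2 h3' h h4 hgG hkG heg hek
  · obtain ⟨t, ht⟩ := L.shapeX4 B.adj B.not_ham h h2 h3' h4' h3 h4 hkG hgG hek heg
    exact ⟨t, ht.of_eq (by unfold e; rw [Set.pair_comm (s(L.v x', L.v y')) _])⟩

/-- A crossing chord and any third chord. -/
lemma cross_third (B : L.Base l) {g k : Sym2 V} (hg : L.IsCross l g)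
    (hgG : g ∈ G.edgeSet) (hkG : k ∈ G.edgeSet) (heg : L.e l ≠ g) (hek : L.e l ≠ k)
    (hgk : g ≠ k) : ∃ t, HasCyc G L.ham {L.e l, g, k} t := by
  rcases classify (L := L) (l := l) hkG with hk | hk | hk
  · exact cross_left B hg hk hgG hkG heg hek
  · have := cross_left B.mir hg.mir hk.mir hgG hkG (by rwa [mir_e B.lt.le])
      (by rwa [mir_e B.lt.le])
    rwa [mir_e B.lt.le, L.mir_ham] at this
  · exact cross_cross B hg hk hgG hkG heg hek hgk

/-- chosen coordinates of left chords -/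
noncomputable def lx (L : Lab G n) (l : ℕ) (f : Sym2 V) : ℕ :=
  open Classical in if h : L.IsLeft l f then h.choose else 0

noncomputable def ly (L : Lab G n) (l : ℕ) (f : Sym2 V) : ℕ :=
  open Classical in if h : L.IsLeft l f then h.choose_spec.choose else 0

lemma IsLeft.spec {f : Sym2 V} (h : L.IsLeft l f) :
    L.lx l f < L.ly l f ∧ L.ly l f ≤ l ∧ f = s(L.v (L.lx l f), L.v (L.ly l f)) := by
  unfold lx ly
  rw [dif_pos h, dif_pos h]
  exact h.choose_spec.choose_spec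

/-- `f` starts and ends before `g` -/
def Bad (L : Lab G n) (l : ℕ) (f g : Sym2 V) : Prop := L.lx l f < L.lx l g ∧ L.ly l f < L.ly l g

lemma bad_pair (B : L.Base l) {f g : Sym2 V} (hf : L.IsLeft l f) (hg : L.IsLeft l g)
    (hfG : f ∈ G.edgeSet) (hgG : g ∈ G.edgeSet) (hef : L.e l ≠ f) (heg : L.e l ≠ g)
    (hb : L.Bad l f g) : ∃ t, HasCyc G L.ham {L.e l, f, g} t := by
  obtain ⟨h1, h2, h3⟩ := hf.spec
  obtain ⟨h1', h2', h3'⟩ := hg.spec
  have hfG' : G.Adj (L.v (L.lx l f)) (L.v (L.ly l f)) := by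
    rw [← mem_edgeSet, ← h3]; exact hfG
  have hgG' : G.Adj (L.v (L.lx l g)) (L.v (L.ly l g)) := by
    rw [← mem_edgeSet, ← h3']; exact hgG
  have hef' : s(L.v 0, L.v l) ≠ s(L.v (L.lx l f), L.v (L.ly l f)) := by rw [← h3]; exact hef
  have heg' : s(L.v 0, L.v l) ≠ s(L.v (L.lx l g), L.v (L.ly l g)) := by rw [← h3']; exact heg
  rcases le_or_gt (L.ly l f) (L.lx l g) with h | h
  · have := L.shapeA B.adj B.not_ham B.lt h1 h h1' h2' hfG' hgG' hef' heg'
    rwa [← h3, ← h3'] at this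
  · have := L.shapeB B.adj B.not_ham B.lt hb.1 h hb.2 h2' hfG' hgG' hef' heg'
    rwa [← h3, ← h3'] at this

/-- two crossing left chords and one inside both -/
lemma bad_triple (B : L.Base l) {f g d : Sym2 V} (hf : L.IsLeft l f) (hg : L.IsLeft l g)
    (hd : L.IsLeft l d)
    (hfG : f ∈ G.edgeSet) (hgG : g ∈ G.edgeSet) (hdG : d ∈ G.edgeSet)
    (hef : L.e l ≠ f) (heg : L.e l ≠ g) (hed : L.e l ≠ d)
    (hb : L.Bad l f g) (h5 : L.lx l g ≤ L.lx l d) (h6 : L.ly l d ≤ L.ly l f) :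
    ∃ t, HasCyc G L.ham {L.e l, f, g, d} t := by
  obtain ⟨h1, h2, h3⟩ := hf.spec
  obtain ⟨h1', h2', h3'⟩ := hg.spec
  obtain ⟨h1'', h2'', h3''⟩ := hd.spec
  have hfG' : G.Adj (L.v (L.lx l f)) (L.v (L.ly l f)) := by
    rw [← mem_edgeSet, ← h3]; exact hfG
  have hgG' : G.Adj (L.v (L.lx l g)) (L.v (L.ly l g)) := by
    rw [← mem_edgeSet, ← h3']; exact hgG
  have hdG' : G.Adj (L.v (L.lx l d)) (L.v (L.ly l d)) := by
    rw [← mem_edgeSet, ← h3'']; exact hdG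
  have hef' : s(L.v 0, L.v l) ≠ s(L.v (L.lx l f), L.v (L.ly l f)) := by rw [← h3]; exact hef
  have heg' : s(L.v 0, L.v l) ≠ s(L.v (L.lx l g), L.v (L.ly l g)) := by rw [← h3']; exact heg
  have hed' : s(L.v 0, L.v l) ≠ s(L.v (L.lx l d), L.v (L.ly l d)) := by rw [← h3'']; exact hed
  have := L.shapeC B.adj B.not_ham B.lt hb.1 h5 h1'' h6 hb.2 h2' hfG' hgG' hdG' hef' heg' hed'
  rwa [← h3, ← h3', ← h3''] at this

end Lab

end Pool.Agent.Hhelper78.Cyc
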